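import Pool.Agent.Run7.h162.CH.Fin

/-!
# Uniform constants, universal schemes, large characteristics
-/

set_option autoImplicit false
set_option linter.unusedSectionVars false

namespace Pool.Agent.Run7.h162.CH

open scoped TensorProduct PowerSeries Topology
open Pool.Agent.H826R3.SM Pool.Agent.TH671.DU Pool.Agent.N86.SQ
open MvPolynomial Filter

/-! ### Uniform constants -/

theorem nontrivial_tr (k : Type) [Field k] (e : ℕ) : Nontrivial (Tr k e) := by
  obtain ⟨f, hf⟩ := exists_cf (k := k) e 0 (Nat.zero_le _)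
  refine ⟨⟨0, 1, fun h => ?_⟩⟩
  have h2 := hf 0
  rw [pow_zero, ← h, map_zero, if_pos rfl] at h2
  exact zero_ne_one h2

/-- local algebras are quotients of powers of truncated polynomial rings -/
theorem exists_surj_tr {k A : Type} [Field k] [IsAlgClosed k] [CommRing A] [Algebra k A]
    [Module.Finite k A] [IsLocalRing A] {e : ℕ} (hd : Module.finrank k A = e + 1) :
    ∃ f : Pow k (Tr k e) (e + 1) →ₐ[k] A, Function.Surjective f := by
  classical
  obtain ⟨d', c, hd', hc⟩ := exists_adapted (F := k) (A := A)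
  obtain rfl : d' = e := by omega
  have hnil : ∀ j, nilp c 0 j ^ (d' + 1) = 0 := by
    intro j
    by_cases hj : j = 0
    · have h1 : nilp c 0 j = 0 := if_pos hj
      rw [h1, zero_pow (Nat.succ_ne_zero _)]
    · have h1 : nilp c 0 j = c j := if_neg hj
      rw [h1]
      have h2 := pow_finrank_eq_zero (F := k) (hc.2 j hj)
      rwa [hd] at h2
  let g : Fin (d' + 1) → (Tr k d' →ₐ[k] A) := fun j =>
    AdjoinRoot.liftAlgHom _ (Algebra.ofId k A) (nilp c 0 j) (by
      rw [Polynomial.eval₂_pow, Polynomial.eval₂_X, hnil])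
  refine ⟨powLift g, ?_⟩
  rw [← AlgHom.range_eq_top, eq_top_iff, ← adjoin_nilp hc]
  refine Algebra.adjoin_le ?_
  rintro _ ⟨j, rfl⟩
  refine ⟨sg k (Tr k d') j (AdjoinRoot.root _), ?_⟩
  have h3 := powLift_single g j (AdjoinRoot.root _)
  refine Eq.trans h3 ?_
  change AdjoinRoot.liftAlgHom _ _ _ _ (AdjoinRoot.root _) = _
  rw [AdjoinRoot.liftAlgHom_root]

/-- a uniform bound for the degrees of smoothable schemes containing the powers -/
theorem mdeg_pow_le_uniform {k A : Type} [Field k] [IsAlgClosed k] [CommRing A] [Algebra k A]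
    [Module.Finite k A] [IsLocalRing A] {d : ℕ} (hd : Module.finrank k A = d) (r : ℕ) :
    mdeg k (Pow k A r) ≤ ((d + 1) ^ d) ^ r := by
  obtain ⟨e, rfl⟩ : ∃ e, d = e + 1 := by
    have : 0 < Module.finrank k A := Module.finrank_pos
    exact ⟨d - 1, by omega⟩
  obtain ⟨f, hf⟩ := exists_surj_tr hd
  have h1 : Fam k A ((e + 2) ^ (e + 1)) := (fam_pow (fam_tr (k := k) e) (e + 1)).of_surjective f hf
  have h2 := fam_pow h1 r
  exact TH671.DU.mdeg_le h2

theorem mdeg_pow_split {k : Type} [Field k] [IsAlgClosed k] (A : Type) [CommRing A] [Algebra k A]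
    [Module.Finite k A] [Nontrivial A] (q a r : ℕ) :
    mdeg k (Pow k A (q * a + r)) ≤ mdeg k (Pow k A q) ^ a * mdeg k (Pow k A r) := by
  induction a with
  | zero => rw [mul_zero, Nat.zero_add, pow_zero, one_mul]
  | succ a ih =>
    have h1 : q * (a + 1) + r = q + (q * a + r) := by ring
    rw [h1]
    refine (mdeg_pow_add (k := k) A _ _).trans ?_
    refine (Nat.mul_le_mul_left _ ih).trans (le_of_eq ?_)
    ring

/-- from one power to all powers, with a constant which depends only on the degree -/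
theorem mdeg_le_of_power {k A : Type} [Field k] [IsAlgClosed k] [CommRing A] [Algebra k A]
    [Module.Finite k A] [IsLocalRing A] {d : ℕ} (hd : Module.finrank k A = d) {x : ℝ} (hx : 1 ≤ x)
    {q : ℕ} (hq : 1 ≤ q) (h : (mdeg k (Pow k A q) : ℝ) < x ^ q) (n : ℕ) :
    (mdeg k (Pow k A n) : ℝ) ≤ (((d + 1) ^ d) ^ q : ℕ) * x ^ n := by
  have h1 := mdeg_pow_split (k := k) A q (n / q) (n % q)
  rw [Nat.div_add_mod] at h1
  have h2 := mdeg_pow_le_uniform hd (n % q)
  have h3 : ((d + 1) ^ d) ^ (n % q) ≤ ((d + 1) ^ d) ^ q :=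
    Nat.pow_le_pow_right (by positivity) (Nat.mod_lt n hq).le
  have h4 : (mdeg k (Pow k A n) : ℝ) ≤ (mdeg k (Pow k A q) : ℝ) ^ (n / q) *
      (((d + 1) ^ d) ^ q : ℕ) := by
    have h5 : mdeg k (Pow k A n) ≤ mdeg k (Pow k A q) ^ (n / q) * ((d + 1) ^ d) ^ q :=
      h1.trans (Nat.mul_le_mul_left _ (h2.trans h3))
    exact_mod_cast h5
  refine h4.trans ?_
  rw [mul_comm]
  refine mul_le_mul_of_nonneg_left ?_ (Nat.cast_nonneg _)
  calc (mdeg k (Pow k A q) : ℝ) ^ (n / q) ≤ (x ^ q) ^ (n / q) :=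
        pow_le_pow_left₀ (Nat.cast_nonneg _) h.le _
    _ = x ^ (q * (n / q)) := by rw [pow_mul]
    _ ≤ x ^ n := pow_le_pow_right₀ hx (Nat.mul_div_le n q)

/-! ### Universal schemes -/

theorem growthRates_nonempty (k : Type) [Field k] [IsAlgClosed k] {d : ℕ} (hd : 1 ≤ d) :
    (growthRates k d).Nonempty := by
  obtain ⟨e, rfl⟩ : ∃ e, d = e + 1 := ⟨d - 1, by omega⟩
  let B := AdjoinRoot.powerBasis' (monic_tr (k := k) e)
  have hdim : B.dim = e + 1 := by
    change (Polynomial.X ^ (e + 1) : Polynomial k).natDegree = e + 1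
    rw [Polynomial.natDegree_X_pow]
  have hgen : B.gen = AdjoinRoot.root (Polynomial.X ^ (e + 1) : Polynomial k) := rfl
  have hb : ∀ i, B.basis i = B.gen ^ (i : ℕ) := fun i => by rw [B.basis_eq_pow]
  have had : Adapted B.basis ⟨0, by omega⟩ := by
    refine ⟨?_, fun i hi => ?_⟩
    · rw [hb, pow_zero]
    · rw [hb]
      refine ⟨e + 1, ?_⟩
      have hi0 : (i : ℕ) ≠ 0 := fun h => hi (Fin.ext h)
      rw [hgen, ← pow_mul]
      have h1 : e + 1 ≤ (i : ℕ) * (e + 1) :=
        Nat.le_mul_of_pos_left (e + 1) (Nat.pos_of_ne_zero hi0)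
      exact pow_eq_zero_of_le h1 (root_tr e)
  exact ⟨rate k (Tr k e), Tr k e, inferInstance, inferInstance, inferInstance, had.isLocalRing, by
    rw [Module.finrank_eq_card_basis B.basis, Fintype.card_fin, hdim], rfl⟩

/-- **Universal schemes.** -/
theorem exists_universal (p : ℕ) (K : Type) [Field K] [IsAlgClosed K] [Uncountable K] [CharP K p]
    {d : ℕ} (hd : 1 ≤ d) : ∃ (A₀ : Type) (_ : CommRing A₀) (_ : Algebra K A₀),
      Module.Finite K A₀ ∧ IsLocalRing A₀ ∧ Module.finrank K A₀ = d ∧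
      ∀ (k : Type) [Field k] [IsAlgClosed k] [CharP k p],
        (∀ y ∈ growthRates k d, y ≤ rate K A₀) ∧ (QOneLocal k d ↔ QOne K A₀) := by
  obtain ⟨A₀, cA, aA, h1, h2, h3, h4⟩ := (isClosed_growthRates K d).csSup_mem
    (growthRates_nonempty K hd) (bddAbove_growthRates K d)
  have hle : ∀ y ∈ growthRates K d, y ≤ rate K A₀ := by
    intro y hy
    rw [h4]
    exact le_csSup (bddAbove_growthRates K d) hy
  refine ⟨A₀, cA, aA, h1, h2, h3, fun k _ _ _ => ⟨le_of_growthRates p K k hle, ?_⟩⟩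
  rw [qOneLocal_char p k K d]
  constructor
  · intro h
    exact h A₀ h3
  · intro h
    rw [qOne_iff_rate, h3] at h
    rw [qOneLocal_iff]
    intro y hy
    rw [← h]
    exact hle y hy

/-! ### Large characteristics -/

theorem rate_le_one {k A : Type} [Field k] [IsAlgClosed k] [CommRing A] [Algebra k A]
    [Module.Finite k A] [Nontrivial A] (hd : Module.finrank k A = 1) : rate k A ≤ 1 := by
  have h1 : Module.finrank k (Pow k A 1) = 1 := by rw [finrank_Pow', hd, pow_one]
  have hnt := nontrivial_pow (k := k) A 1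
  have h2 : Fam k (Pow k A 1) 1 := by
    refine fam_self.of_surjective (Algebra.ofId k (Pow k A 1)) ?_
    have h2 := Subalgebra.bot_eq_top_of_finrank_eq_one h1
    intro y
    have : y ∈ (⊥ : Subalgebra k (Pow k A 1)) := by rw [h2]; trivial
    rw [Algebra.mem_bot] at this
    exact this
  have h3 := TH671.DU.mdeg_le h2
  have h4 := rate_pow_le (k := k) A 1
  rw [pow_one] at h4
  refine h4.trans ?_
  exact_mod_cast h3

/-- **The limit of Q1 in large characteristics.** -/
theorem limit_large (K₀ : Type) [Field K₀] [IsAlgClosed K₀] [CharZero K₀] (D : ℕ)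
    (h : ∀ d ≤ D, QOneLocal K₀ d) (ε : ℝ) (hε : 0 < ε) : ∃ p₀ : ℕ, ∀ (p : ℕ), p₀ ≤ p →
      ∀ (k A : Type) [Field k] [IsAlgClosed k] [CharP k p] [CommRing A] [Algebra k A]
        [Module.Finite k A] [Nontrivial A], Module.finrank k A ≤ D →
        Tendsto (fun n : ℕ => (defect k (Pow k A n) : ℝ) /
          (Module.finrank k A : ℝ) ^ ((1 + ε) * (n : ℝ))) atTop (𝓝 0) := by
  have h2ε : (1 : ℝ) < (2 : ℝ) ^ ε := Real.one_lt_rpow (by norm_num) hε
  obtain ⟨C, hC1, hC2⟩ := exists_between h2ε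
  have hex : ∀ d : ℕ, ∃ p₀ : ℕ, d ≤ D → 1 ≤ d → ∀ (p : ℕ) (k : Type) [Field k] [IsAlgClosed k]
      [CharP k p], p₀ ≤ p → ∀ x ∈ growthRates k d, x < C * d := by
    intro d
    by_cases hd : d ≤ D ∧ 1 ≤ d
    · have hd0 : (0 : ℝ) < d := by exact_mod_cast hd.2
      obtain ⟨p₀, hp₀⟩ := large_char K₀ d ((qOneLocal_iff K₀ d).1 (h d hd.1)) ((C - 1) * d)
        (mul_pos (by linarith) hd0)
      refine ⟨p₀, fun _ _ p k _ _ _ hp x hx => ?_⟩
      have := hp₀ p k hp x hx
      linarith
    · exact ⟨0, fun h1 h2 => absurd ⟨h1, h2⟩ hd⟩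
  choose P hP using hex
  refine ⟨(Finset.range (D + 1)).sup P, fun p hp k A _ _ _ _ _ _ _ hA => ?_⟩
  have hloc : ∀ (A : Type) [CommRing A] [Algebra k A] [Module.Finite k A] [IsLocalRing A],
      Module.finrank k A ≤ D → rate k A ≤ C * Module.finrank k A := by
    intro A _ _ _ _ hAD
    refine (hP (Module.finrank k A) hAD Module.finrank_pos p k
      ((Finset.le_sup (f := P) (Finset.mem_range.2 (by omega))).trans hp) _
      ⟨A, inferInstance, inferInstance, inferInstance, inferInstance, rfl, rfl⟩).le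
  have hrate := rate_le_of_local hloc _ A hA rfl
  have hpos : 0 < Module.finrank k A := Module.finrank_pos
  rcases Nat.lt_or_ge 1 (Module.finrank k A) with h1 | h1
  · refine Pool.Agent.R836.Emb.lim_of_rate A (lt_of_le_of_lt hrate ?_)
    have hd0 : (0 : ℝ) < Module.finrank k A := by exact_mod_cast hpos
    rw [Real.rpow_add hd0, Real.rpow_one, mul_comm]
    refine mul_lt_mul_of_pos_left (lt_of_lt_of_le hC2 ?_) hd0
    refine Real.rpow_le_rpow (by norm_num) ?_ hε.le
    exact_mod_cast h1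
  · have hd1 : Module.finrank k A = 1 := by omega
    have hQ : QOne k A := by
      rw [qOne_iff_rate, hd1]
      refine le_antisymm (by exact_mod_cast rate_le_one hd1) ?_
      have := finrank_le_rate (k := k) A
      rwa [hd1] at this
    exact hQ ε hε

end Pool.Agent.Run7.h162.CH
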