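import Pool.Agent.Run7.h162.CH.Fam

/-!
# Growth rates of the members of a family
-/

set_option autoImplicit false
set_option linter.unusedSectionVars false

namespace Pool.Agent.Run7.h162.CH

open scoped TensorProduct PowerSeries Topology
open Pool.Agent.H826R3.SM Pool.Agent.TH671.DU Pool.Agent.N86.SQ
open MvPolynomial

/-- the nilpotent elements of an adapted basis -/
noncomputable def nilp {R 𝒜 : Type} [CommRing R] [CommRing 𝒜] [Algebra R 𝒜] {d : ℕ}
    (c : Module.Basis (Fin d) R 𝒜) (i₀ : Fin d) : Fin d → 𝒜 := fun i => if i = i₀ then 0 else c i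

/-- the coordinates of the monomials -/
noncomputable def kap {R 𝒜 : Type} [CommRing R] [CommRing 𝒜] [Algebra R 𝒜] {d : ℕ}
    (c : Module.Basis (Fin d) R 𝒜) (i₀ j : Fin d) (s : Fin d →₀ ℕ) : R :=
  c.repr (aeval (nilp c i₀) (monomial s (1 : R))) j

section gt

variable {R 𝒜 : Type} [CommRing R] [CommRing 𝒜] [Algebra R 𝒜] {d : ℕ}
  {c : Module.Basis (Fin d) R 𝒜}

theorem Over.coord {F A : Type} [Field F] [CommRing A] [Algebra F A] {φ : R →+* F}
    {c' : Module.Basis (Fin d) F A} {Φ : 𝒜 →+* A} (h : Over φ c c' Φ) (i₀ : Fin d) :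
    Coord φ (nilp c' i₀) (kap c i₀) := by
  refine ⟨c', fun j s => ?_⟩
  unfold kap
  rw [← h.repr]
  congr 2
  rw [aeval_monomial, aeval_monomial, map_one, one_mul, map_one, one_mul]
  unfold Finsupp.prod
  rw [map_prod]
  refine Finset.prod_congr rfl fun i _ => ?_
  have h1 : nilp c' i₀ i = Φ (nilp c i₀ i) := by
    unfold nilp
    split_ifs
    · rw [map_zero]
    · rw [h.2]
  rw [map_pow, ← h1]

theorem adjoin_nilp {F A : Type} [Field F] [CommRing A] [Algebra F A]
    {c' : Module.Basis (Fin d) F A} {i₀ : Fin d} (hc : Adapted c' i₀) :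
    Algebra.adjoin F (Set.range (nilp c' i₀)) = ⊤ := by
  rw [eq_top_iff]
  rintro x -
  rw [← c'.sum_repr x]
  refine Subalgebra.sum_mem _ fun i _ => Subalgebra.smul_mem _ ?_ _
  by_cases hi : i = i₀
  · rw [hi, hc.1]
    exact Subalgebra.one_mem _
  · have h1 : nilp c' i₀ i = c' i := if_neg hi
    rw [← h1]
    exact Algebra.subset_adjoin ⟨i, rfl⟩

theorem span_nilp {F A : Type} [Field F] [CommRing A] [Algebra F A] [IsAlgClosed F]
    {c' : Module.Basis (Fin d) F A} {i₀ : Fin d} (hc : Adapted c' i₀) :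
    Ideal.span (Set.range (nilp c' i₀)) ^ d = ⊥ := by
  have := hc.isLocalRing
  have hfin : Module.Finite F A := Module.Finite.of_basis c'
  have h1 := Pool.Agent.N823.maximalIdeal_pow_finrank (k := F) A
  rw [Module.finrank_eq_card_basis c', Fintype.card_fin] at h1
  rw [eq_bot_iff, ← h1]
  refine Ideal.pow_right_mono ?_ _
  rw [Ideal.span_le]
  rintro _ ⟨i, rfl⟩
  unfold nilp
  split_ifs with hi
  · exact Ideal.zero_mem _
  · change c' i ∈ IsLocalRing.maximalIdeal A
    rw [IsLocalRing.mem_maximalIdeal]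
    exact fun hu => not_isUnit_zero (by
      obtain ⟨n, hn⟩ := hc.2 i hi
      rw [← hn]
      exact hu.pow n)

/-- **The growth rates of the members of a family.** -/
theorem family_rate {i₀ : Fin d} (hc : Adapted c i₀) {K B : Type} [Field K] [IsAlgClosed K]
    [CommRing B] [Algebra K B] {ψ : R →+* K} {cB : Module.Basis (Fin d) K B} {Ψ : 𝒜 →+* B}
    (hB : Over ψ c cB Ψ) {x : ℝ} (hx : rate K B < x) :
    ∃ N n m W : ℕ, Sol ψ (kpow (kpow (kap c i₀) N) n) m W ∧
      ∀ (k A : Type) [Field k] [IsAlgClosed k] [CommRing A] [Algebra k A] (φ : R →+* k)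
        (c' : Module.Basis (Fin d) k A) (Φ : 𝒜 →+* A), Over φ c c' Φ →
          Sol φ (kpow (kpow (kap c i₀) N) n) m W → rate k A < x := by
  obtain ⟨e, rfl⟩ : ∃ e, d = e + 1 := by
    rcases d with - | e
    · exact i₀.elim0
    · exact ⟨e, rfl⟩
  have hlB := (hB.adapted hc).isLocalRing
  have hfB : Module.Finite K B := Module.Finite.of_basis cB
  have hr := one_le_rate (k := K) B
  obtain ⟨N, n, m, W, -, -, hm, hL, hW⟩ := exists_lines (nilp cB i₀) hx e
  refine ⟨N, n, m, W, sol_of_lines (((hB.coord i₀).pow N).pow n) hL, ?_⟩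
  intro k A _ _ _ _ φ c' Φ hA hS
  have hcA := hA.adapted hc
  have hlA := hcA.isLocalRing
  have hfA : Module.Finite k A := Module.Finite.of_basis c'
  exact rate_lt_of_lines (adjoin_nilp hcA) (span_nilp hcA) hm
    (lines_of_sol (((hA.coord i₀).pow N).pow n) hS) (by linarith) hW

end gt

/-- local algebras stay local -/
theorem isLocalRing_baseChange (k K A : Type) [Field k] [IsAlgClosed k] [Field K] [IsAlgClosed K]
    [Algebra k K] [CommRing A] [Algebra k A] [Module.Finite k A] [IsLocalRing A] :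
    IsLocalRing (K ⊗[k] A) := by
  obtain ⟨d, c, hd, hc⟩ := exists_adapted (F := k) (A := A)
  have h1 : Over (algebraMap k K) c (Module.Basis.baseChange K c)
      (Algebra.TensorProduct.includeRight (R := k) (A := K) (B := A)).toRingHom := by
    refine ⟨fun r => ?_, fun i => ?_⟩
    · change (1 : K) ⊗ₜ[k] algebraMap k A r = _
      rw [Algebra.algebraMap_eq_smul_one, ← TensorProduct.smul_tmul,
        Algebra.TensorProduct.algebraMap_apply, Algebra.algebraMap_self, RingHom.id_apply,
        Algebra.smul_def, mul_one]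
    · rw [Module.Basis.baseChange_apply]
      rfl
  exact (h1.adapted hc).isLocalRing

end Pool.Agent.Run7.h162.CH
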