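import Pool.Agent.Run7.h162.CH.Max

/-!
# The set of all growth rates in given degree and characteristic
-/

set_option autoImplicit false
set_option linter.unusedSectionVars false

namespace Pool.Agent.Run7.h162.CH

open scoped TensorProduct PowerSeries Topology
open Pool.Agent.H826R3.SM Pool.Agent.TH671.DU Pool.Agent.N86.SQ
open Filter

/-- uncountable algebraically closed fields -/
theorem exists_uncountable (k : Type) [Field k] (p : ℕ) [CharP k p] :
    ∃ (K : Type) (_ : Field K) (_ : IsAlgClosed K), CharP K p ∧ Uncountable K := by
  let F : Type := FractionRing (PowerSeries k)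
  let K : Type := AlgebraicClosure F
  have hF : CharP (PowerSeries k) p :=
    charP_of_injective_ringHom (PowerSeries.C_injective (R := k)) p
  have hK : CharP K p :=
    charP_of_injective_ringHom (f := (algebraMap F K).comp (algebraMap (PowerSeries k) F))
      ((algebraMap F K).injective.comp (IsFractionRing.injective (PowerSeries k) F)) p
  refine ⟨K, inferInstance, inferInstance, hK, ?_⟩
  classical
  let g : Set ℕ → PowerSeries k := fun S => PowerSeries.mk fun n => if n ∈ S then 1 else 0
  have hg : Function.Injective g := by
    intro S T h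
    ext n
    have h1 := congrArg (PowerSeries.coeff n) h
    simp only [g, PowerSeries.coeff_mk] at h1
    by_cases hS : n ∈ S <;> by_cases hT : n ∈ T <;> simp_all
  have hinj : Function.Injective fun S : Set ℕ =>
      algebraMap F K (algebraMap (PowerSeries k) F (g S)) :=
    ((algebraMap F K).injective.comp (IsFractionRing.injective (PowerSeries k) F)).comp hg
  have hN : Uncountable (Set ℕ) := by
    rw [← not_countable_iff]
    intro h
    obtain ⟨f, hf⟩ := exists_injective_nat (Set ℕ)
    exact Function.cantor_injective f hf
  exact hinj.uncountable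

theorem subset_growthRates (p : ℕ) (k K : Type) [Field k] [IsAlgClosed k] [CharP k p]
    [Field K] [IsAlgClosed K] [CharP K p] [Uncountable K] (d : ℕ) :
    growthRates k d ⊆ growthRates K d := by
  refine subset_closure.trans ?_
  rw [closure_growthRates_eq p k K d, (isClosed_growthRates K d).closure_eq]

theorem allRates_eq (p : ℕ) (K : Type) [Field K] [IsAlgClosed K] [CharP K p] [Uncountable K]
    (d : ℕ) : allRates d p = growthRates K d := by
  refine Set.Subset.antisymm ?_ (growthRates_subset_allRates K d p)
  rintro x ⟨k, _, _, _, hx⟩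
  exact subset_growthRates p k K d hx

theorem allRates_eq_closure (p : ℕ) (k : Type) [Field k] [IsAlgClosed k] [CharP k p] (d : ℕ) :
    allRates d p = closure (growthRates k d) := by
  obtain ⟨K, _, _, _, _⟩ := exists_uncountable k p
  rw [allRates_eq p K d, closure_growthRates_eq p k K d, (isClosed_growthRates K d).closure_eq]

/-- **The set of all growth rates is well-ordered and compact.** -/
theorem allRates_isWF (d p : ℕ) : (allRates d p).IsWF ∧ IsCompact (allRates d p) := by
  by_cases hex : ∃ (K₀ : Type) (_ : Field K₀) (_ : IsAlgClosed K₀), CharP K₀ p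
  · obtain ⟨K₀, _, _, _⟩ := hex
    obtain ⟨K, _, _, _, _⟩ := exists_uncountable K₀ p
    rw [allRates_eq p K d]
    refine ⟨growthRates_isWF d, ?_⟩
    have h2 : BddBelow (growthRates K d) := by
      refine ⟨1, ?_⟩
      rintro x ⟨A, _, _, hA1, hA2, hA3, rfl⟩
      exact one_le_rate (k := K) A
    exact Metric.isCompact_of_isClosed_isBounded (isClosed_growthRates K d)
      (isBounded_iff_bddBelow_bddAbove.2 ⟨h2, bddAbove_growthRates K d⟩)
  · have h0 : allRates d p = ∅ := by
      rw [Set.eq_empty_iff_forall_notMem]
      rintro x ⟨k, _, _, _, hx⟩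
      exact hex ⟨k, inferInstance, inferInstance, inferInstance⟩
    rw [h0]
    exact ⟨Set.isWF_empty, isCompact_empty⟩

theorem allRates_gap (d p : ℕ) (x : ℝ) : ∃ ε : ℝ, 0 < ε ∧ ∀ y ∈ allRates d p, y < x + ε → y ≤ x := by
  have hwf : ({y ∈ allRates d p | x < y}).IsWF :=
    (allRates_isWF d p).1.mono (Set.sep_subset _ _)
  by_cases hne : ({y ∈ allRates d p | x < y}).Nonempty
  · refine ⟨hwf.min hne - x, ?_, fun y hy hyx => ?_⟩
    · have := (hwf.min_mem hne).2
      linarith
    · by_contra hcon
      have h1 := hwf.min_le hne (a := y) ⟨hy, not_le.1 hcon⟩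
      linarith
  · refine ⟨1, one_pos, fun y hy _ => ?_⟩
    by_contra hcon
    exact hne ⟨y, hy, not_le.1 hcon⟩

end Pool.Agent.Run7.h162.CH
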