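import Pool.Agent.Run7.h162.CH.Spread

/-!
# Growth rates and the characteristic
-/

set_option autoImplicit false
set_option linter.unusedSectionVars false

namespace Pool.Agent.Run7.h162.CH

open scoped TensorProduct PowerSeries Topology
open Pool.Agent.H826R3.SM Pool.Agent.TH671.DU Pool.Agent.N86.SQ
open MvPolynomial

theorem closure_growthRates_algebra (k K : Type) [Field k] [IsAlgClosed k] [Field K]
    [IsAlgClosed K] [Algebra k K] (d : ℕ) :
    closure (growthRates k d) = closure (growthRates K d) := by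
  obtain ⟨h1, h2⟩ := growthRates_closure k K d
  exact (closure_mono h1).antisymm (closure_minimal h2 isClosed_closure)

theorem closure_growthRates_subfield (F k K : Type) [Field F] [Field k] [IsAlgClosed k]
    [Field K] [IsAlgClosed K] [Algebra F k] [Algebra F K] (d : ℕ) :
    closure (growthRates k d) = closure (growthRates K d) := by
  let j1 : AlgebraicClosure F →ₐ[F] k := IsAlgClosed.lift
  let j2 : AlgebraicClosure F →ₐ[F] K := IsAlgClosed.lift
  have h1 : closure (growthRates (AlgebraicClosure F) d) = closure (growthRates k d) := by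
    letI : Algebra (AlgebraicClosure F) k := j1.toRingHom.toAlgebra
    exact closure_growthRates_algebra _ _ d
  have h2 : closure (growthRates (AlgebraicClosure F) d) = closure (growthRates K d) := by
    letI : Algebra (AlgebraicClosure F) K := j2.toRingHom.toAlgebra
    exact closure_growthRates_algebra _ _ d
  rw [← h1, h2]

/-- **The closure of the set of growth rates depends only on the characteristic.** -/
theorem closure_growthRates_eq (p : ℕ) (k K : Type) [Field k] [IsAlgClosed k] [CharP k p]
    [Field K] [IsAlgClosed K] [CharP K p] (d : ℕ) :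
    closure (growthRates k d) = closure (growthRates K d) := by
  rcases Nat.eq_zero_or_pos p with rfl | hp
  · have := CharP.charP_to_charZero k
    have := CharP.charP_to_charZero K
    exact closure_growthRates_subfield ℚ k K d
  · have hpp : Fact p.Prime := ⟨CharP.char_prime_of_ne_zero k hp.ne'⟩
    letI : Algebra (ZMod p) k := ZMod.algebra k p
    letI : Algebra (ZMod p) K := ZMod.algebra K p
    exact closure_growthRates_subfield (ZMod p) k K d

/-! ### Products of fields -/

section prod

variable {I : Type} {F : I → Type} [∀ i, Field (F i)]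

/-- the ideal of the functions with finite support -/
def finIdeal (F : I → Type) [∀ i, Field (F i)] : Ideal (∀ i, F i) where
  carrier := {f | {i | f i ≠ 0}.Finite}
  zero_mem' := by
    simp only [Set.mem_ofPred_eq, Pi.zero_apply, ne_eq, not_true_eq_false, Set.ofPred_false,
      Set.finite_empty]
  add_mem' := by
    intro a b ha hb
    refine (Set.Finite.union ha hb).subset fun i hi => ?_
    by_contra h
    simp only [Set.mem_union, Set.mem_ofPred_eq, not_or, not_not] at h
    exact hi (by rw [Pi.add_apply, h.1, h.2, add_zero])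
  smul_mem' := by
    intro r a ha
    refine Set.Finite.subset ha fun i hi h => hi ?_
    rw [smul_eq_mul, Pi.mul_apply, h, mul_zero]

theorem finIdeal_ne_top [Infinite I] : finIdeal F ≠ ⊤ := by
  rw [Ne, Ideal.eq_top_iff_one]
  intro h
  have h1 : {i : I | (1 : ∀ i, F i) i ≠ 0}.Finite := h
  have h2 : {i : I | (1 : ∀ i, F i) i ≠ 0} = Set.univ := by
    ext i
    simp
  rw [h2] at h1
  exact Set.infinite_univ h1

theorem isAlgClosed_quotient [∀ i, IsAlgClosed (F i)] {K : Type} [Field K]
    (φ : (∀ i, F i) →+* K) (hφ : Function.Surjective φ) : IsAlgClosed K := by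
  refine IsAlgClosed.of_exists_root K fun p hp hirr => ?_
  obtain ⟨P, hP, hdeg, hmon⟩ := Polynomial.lifts_and_natDegree_eq_and_monic
    (Polynomial.mem_lifts _ |>.2 (Polynomial.map_surjective φ hφ p)) hp
  have hpos : 0 < p.natDegree := hirr.natDegree_pos
  have hroot : ∀ i, ∃ x : F i, (P.map (Pi.evalRingHom F i)).eval x = 0 := by
    intro i
    refine IsAlgClosed.exists_root _ ?_
    rw [Polynomial.degree_eq_natDegree (hmon.map _).ne_zero, hmon.natDegree_map, hdeg]
    exact_mod_cast hpos.ne'
  choose x hx using hroot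
  refine ⟨φ x, ?_⟩
  have h1 : P.eval x = 0 := by
    funext i
    have h2 := hx i
    have h3 := Polynomial.eval₂_hom (p := P) (Pi.evalRingHom F i) x
    rw [Polynomial.eval_map] at h2
    exact h3.symm.trans h2
  rw [← hP, Polynomial.eval_map, Polynomial.eval₂_hom, h1, map_zero]

theorem charZero_quotient {F : ℕ → Type} [∀ i, Field (F i)] {K : Type} [Field K]
    (φ : (∀ i, F i) →+* K) (hφ : finIdeal F ≤ RingHom.ker φ) (p : ℕ → ℕ) (hp : ∀ i, i ≤ p i)
    [∀ i, CharP (F i) (p i)] : CharZero K := by
  refine charZero_of_inj_zero fun n hn => ?_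
  by_contra hn0
  have hnpos : 0 < n := Nat.pos_of_ne_zero hn0
  -- the inverse of `n` at almost all the factors
  let u : ∀ i, F i := fun i => ((n : ℕ) : F i)⁻¹
  have h1 : (1 - (n : ∀ i, F i) * u) ∈ finIdeal F := by
    change {i | (1 - (n : ∀ i, F i) * u) i ≠ 0}.Finite
    refine (Set.finite_Iic n).subset fun i hi => ?_
    by_contra hin
    have hin' : n < i := not_le.1 hin
    apply hi
    have h2 : ((n : ℕ) : F i) ≠ 0 := by
      intro h3
      have h4 := (CharP.cast_eq_zero_iff (F i) (p i) n).1 h3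
      have h5 := Nat.le_of_dvd hnpos h4
      have h6 := hp i
      omega
    rw [Pi.sub_apply, Pi.mul_apply, Pi.one_apply, Pi.natCast_apply]
    change 1 - ((n : ℕ) : F i) * ((n : ℕ) : F i)⁻¹ = 0
    rw [mul_inv_cancel₀ h2, sub_self]
  have h2 := hφ h1
  rw [RingHom.mem_ker, map_sub, map_one, map_mul, map_natCast, hn, zero_mul, sub_zero] at h2
  exact one_ne_zero h2

/-- algebras over a product of fields -/
theorem exists_prod_family {I : Type} {F : I → Type} [∀ i, Field (F i)] {A : I → Type}
    [∀ i, CommRing (A i)] [∀ i, Algebra (F i) (A i)] {d : ℕ}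
    (c : ∀ i, Module.Basis (Fin (d + 1)) (F i) (A i)) (hc : ∀ i, Adapted (c i) 0)
    (hn : ∀ i j, j ≠ 0 → c i j ^ (d + 1) = 0) :
    ∃ (𝒜 : Type) (_ : CommRing 𝒜) (_ : Algebra (∀ i, F i) 𝒜)
      (C : Module.Basis (Fin (d + 1)) (∀ i, F i) 𝒜) (Φ : ∀ i, 𝒜 →+* A i), Adapted C 0 ∧
      ∀ i, Over (Pi.evalRingHom F i) C (c i) (Φ i) := by
  classical
  have hsm : ∀ (r : ∀ i, F i) (z : ∀ i, A i) (i : I), (r • z) i = r i • z i := by
    intro r z i
    rfl
  let e : (∀ i, A i) ≃ₗ[∀ i, F i] (Fin (d + 1) → ∀ i, F i) :=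
    { toFun := fun z j i => (c i).repr (z i) j
      map_add' := fun z z' => by
        funext j i
        rw [Pi.add_apply, map_add, Finsupp.add_apply]
        rfl
      map_smul' := fun r z => by
        funext j i
        rw [hsm, map_smul, Finsupp.smul_apply]
        rfl
      invFun := fun f i => ∑ j, f j i • c i j
      left_inv := fun z => by
        funext i
        exact (c i).sum_repr (z i)
      right_inv := fun f => by
        funext j i
        exact (c i).repr_sum_self _ |> fun h => congrFun h j }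
  let C : Module.Basis (Fin (d + 1)) (∀ i, F i) (∀ i, A i) := Module.Basis.ofEquivFun e
  have hC : ∀ j i, C j i = c i j := by
    intro j i
    have h1 : C j = e.symm (Pi.single j 1) := by
      change (Module.Basis.ofEquivFun e) j = _
      rw [Module.Basis.coe_ofEquivFun]
    rw [h1]
    change ∑ j', (Pi.single j (1 : ∀ i, F i) : Fin (d + 1) → ∀ i, F i) j' i • c i j' = c i j
    rw [Finset.sum_eq_single j]
    · rw [Pi.single_eq_same, Pi.one_apply, one_smul]
    · intro j' _ hj'
      rw [Pi.single_eq_of_ne hj', Pi.zero_apply, zero_smul]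
    · intro h
      exact absurd (Finset.mem_univ _) h
  refine ⟨∀ i, A i, inferInstance, inferInstance, C, fun i => Pi.evalRingHom A i, ⟨?_, ?_⟩,
    fun i => ⟨fun r => rfl, fun j => hC j i⟩⟩
  · funext i
    rw [hC, (hc i).1]
    rfl
  · intro j hj
    refine ⟨d + 1, ?_⟩
    funext i
    rw [Pi.pow_apply, hC, hn i j hj]
    rfl

end prod

theorem pow_finrank_eq_zero {F A : Type} [Field F] [CommRing A] [Algebra F A] [Module.Finite F A]
    [IsLocalRing A] {z : A} (hz : IsNilpotent z) : z ^ Module.finrank F A = 0 := by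
  have h1 : z ∈ IsLocalRing.maximalIdeal A := by
    rw [IsLocalRing.mem_maximalIdeal]
    intro hu
    obtain ⟨n, hn⟩ := hz
    have h0 := hu.pow n
    rw [hn] at h0
    exact not_isUnit_zero h0
  have h2 := Ideal.pow_mem_pow h1 (Module.finrank F A)
  rw [Pool.Agent.N823.maximalIdeal_pow_finrank (k := F) A] at h2
  exact h2

/-- **Large characteristics.** -/
theorem large_char (K₀ : Type) [Field K₀] [IsAlgClosed K₀] [CharZero K₀] (d : ℕ) {t : ℝ}
    (ht : ∀ x ∈ growthRates K₀ d, x ≤ t) (η : ℝ) (hη : 0 < η) :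
    ∃ p₀ : ℕ, ∀ (p : ℕ) (k : Type) [Field k] [IsAlgClosed k] [CharP k p], p₀ ≤ p →
      ∀ x ∈ growthRates k d, x < t + η := by
  classical
  by_contra hcon
  push Not at hcon
  choose p k fk ak hk hp x hx hxt using hcon
  have hx' : ∀ i, ∃ (A : Type) (_ : CommRing A) (_ : Algebra (k i) A) (d' : ℕ)
      (c : Module.Basis (Fin (d' + 1)) (k i) A), Module.finrank (k i) A = d' + 1 ∧
      Module.Finite (k i) A ∧ IsLocalRing A ∧ Module.finrank (k i) A = d ∧
      rate (k i) A = x i ∧ Adapted c 0 := by
    intro i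
    obtain ⟨A, _, _, hA1, hA2, hA3, hA4⟩ := hx i
    obtain ⟨d', c, hd', hc⟩ := exists_adapted (F := k i) (A := A)
    exact ⟨A, inferInstance, inferInstance, d', c, hd', hA1, hA2, hA3, hA4, hc⟩
  choose A cA aA d' c hd' hfin hloc hd hrate hc using hx'
  obtain ⟨e, rfl⟩ : ∃ e, d = e + 1 := ⟨d' 0, by rw [← hd 0, hd' 0]⟩
  have hde : ∀ i, d' i = e := fun i => by
    have h1 := hd i
    rw [hd' i] at h1
    omega
  obtain rfl : d' = fun _ => e := funext hde
  obtain ⟨𝒜, _, _, C, Φ, hC, hO⟩ := exists_prod_family c hc (fun i j hj => by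
    have h1 := pow_finrank_eq_zero (F := k i) ((hc i).2 j hj)
    rw [hd i] at h1
    exact h1)
  obtain ⟨M, hM, hle⟩ := Ideal.exists_le_maximal (finIdeal k) finIdeal_ne_top
  letI : Field ((∀ i, k i) ⧸ M) := Ideal.Quotient.field M
  let φ : (∀ i, k i) →+* ((∀ i, k i) ⧸ M) := Ideal.Quotient.mk M
  have hφ : Function.Surjective φ := Ideal.Quotient.mk_surjective
  have hK : IsAlgClosed ((∀ i, k i) ⧸ M) := isAlgClosed_quotient φ hφ
  have hK0 : CharZero ((∀ i, k i) ⧸ M) := charZero_quotient φ (by
    rw [Ideal.mk_ker]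
    exact hle) p hp
  obtain ⟨B, _, _, cB, Ψ, hB⟩ := exists_fibre' φ C
  have hcB := hB.adapted hC
  have hlB : IsLocalRing B := hcB.isLocalRing
  have hfB : Module.Finite ((∀ i, k i) ⧸ M) B := Module.Finite.of_basis cB
  have hmem : rate ((∀ i, k i) ⧸ M) B ∈ growthRates ((∀ i, k i) ⧸ M) (e + 1) :=
    ⟨B, inferInstance, inferInstance, hfB, hlB, by
      rw [Module.finrank_eq_card_basis cB, Fintype.card_fin], rfl⟩
  have hle' : rate ((∀ i, k i) ⧸ M) B ≤ t := by
    have h1 := closure_growthRates_eq 0 K₀ ((∀ i, k i) ⧸ M) (e + 1)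
    have h2 : rate ((∀ i, k i) ⧸ M) B ∈ closure (growthRates K₀ (e + 1)) := by
      rw [h1]
      exact subset_closure hmem
    have h3 : closure (growthRates K₀ (e + 1)) ⊆ Set.Iic t :=
      closure_minimal (fun y hy => ht y hy) isClosed_Iic
    exact h3 h2
  obtain ⟨N, n, m, W, hS, hr⟩ := family_rate hC hB (x := t + η) (by linarith)
  obtain ⟨i, hi⟩ := hS.exists_of_quotient φ hφ
  have h4 := hr (k i) (A i) (Pi.evalRingHom k i) (c i) (Φ i) (hO i) hi
  rw [hrate i] at h4
  exact absurd (hxt i) (not_le.2 h4)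

end Pool.Agent.Run7.h162.CH
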