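import Pool.Agent.Run7.h162.CH.Form

/-!
# Families of algebras
-/

set_option autoImplicit false
set_option linter.unusedSectionVars false

namespace Pool.Agent.Run7.h162.CH

open scoped TensorProduct PowerSeries Topology
open Pool.Agent.H826R3.SM Pool.Agent.TH671.DU Pool.Agent.N86.SQ
open MvPolynomial

section chg

variable {R F 𝒜 A J : Type} [CommRing R] [CommRing F] [CommRing 𝒜] [Algebra R 𝒜] [CommRing A]
  [Algebra F A]

/-- `A` with the basis `c'` is obtained from `𝒜` with the basis `c` by change of rings. -/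
def Over (φ : R →+* F) (c : Module.Basis J R 𝒜) (c' : Module.Basis J F A) (Φ : 𝒜 →+* A) : Prop :=
  (∀ r, Φ (algebraMap R 𝒜 r) = algebraMap F A (φ r)) ∧ ∀ i, Φ (c i) = c' i

theorem Over.repr [Fintype J] {φ : R →+* F} {c : Module.Basis J R 𝒜} {c' : Module.Basis J F A}
    {Φ : 𝒜 →+* A} (h : Over φ c c' Φ) (z : 𝒜) (j : J) : c'.repr (Φ z) j = φ (c.repr z j) := by
  have h1 : Φ z = ∑ i, φ (c.repr z i) • c' i := by
    conv_lhs => rw [← c.sum_repr z]
    rw [map_sum]
    refine Finset.sum_congr rfl fun i _ => ?_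
    rw [Algebra.smul_def, map_mul, h.1, h.2, ← Algebra.smul_def]
  rw [h1, c'.repr_sum_self]

/-- structure constants over a commutative ring -/
noncomputable def parR {d : ℕ} (c : Module.Basis (Fin d) R 𝒜) : PIdx d → R :=
  Sum.elim (fun z => c.repr (c z.1 * c z.2.1) z.2.2) (fun i => c.repr 1 i)

theorem Over.parR {d : ℕ} {φ : R →+* F} {c : Module.Basis (Fin d) R 𝒜}
    {c' : Module.Basis (Fin d) F A} {Φ : 𝒜 →+* A} (h : Over φ c c' Φ) (v : PIdx d) :
    CH.parR c' v = φ (CH.parR c v) := by
  rcases v with ⟨i, j, l⟩ | l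
  · change c'.repr (c' i * c' j) l = φ (c.repr (c i * c j) l)
    rw [← h.repr, map_mul Φ, h.2, h.2]
  · change c'.repr 1 l = φ (c.repr 1 l)
    rw [← h.repr, map_one Φ]

/-- bases consisting of the unit and nilpotent elements -/
def Adapted (c : Module.Basis J R 𝒜) (i₀ : J) : Prop := c i₀ = 1 ∧ ∀ i, i ≠ i₀ → IsNilpotent (c i)

theorem Over.adapted {φ : R →+* F} {c : Module.Basis J R 𝒜} {c' : Module.Basis J F A}
    {Φ : 𝒜 →+* A} (h : Over φ c c' Φ) {i₀ : J} (hc : Adapted c i₀) : Adapted c' i₀ := by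
  refine ⟨?_, fun i hi => ?_⟩
  · rw [← h.2, hc.1, map_one]
  · rw [← h.2]
    exact (hc.2 i hi).map Φ

theorem Over.adapted_of_injective {φ : R →+* F} {c : Module.Basis J R 𝒜}
    {c' : Module.Basis J F A} {Φ : 𝒜 →+* A} (h : Over φ c c' Φ) (hΦ : Function.Injective Φ)
    {i₀ : J} (hc : Adapted c' i₀) : Adapted c i₀ := by
  refine ⟨?_, fun i hi => ?_⟩
  · apply hΦ
    rw [h.2, hc.1, map_one]
  · obtain ⟨n, hn⟩ := hc.2 i hi
    refine ⟨n, hΦ ?_⟩
    rw [map_pow, h.2, hn, map_zero]

end chg

/-- algebras with an adapted basis are local -/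
theorem Adapted.isLocalRing {F A J : Type} [Field F] [CommRing A] [Algebra F A] [Fintype J]
    {c : Module.Basis J F A} {i₀ : J} (hc : Adapted c i₀) : IsLocalRing A := by
  classical
  have hnt : Nontrivial A := ⟨⟨c i₀, 0, c.ne_zero i₀⟩⟩
  refine IsLocalRing.of_isUnit_or_isUnit_one_sub_self fun a => ?_
  have h1 : a = algebraMap F A (c.repr a i₀) + ∑ i ∈ Finset.univ.erase i₀, c.repr a i • c i := by
    conv_lhs => rw [← c.sum_repr a, ← Finset.add_sum_erase _ _ (Finset.mem_univ i₀)]
    rw [hc.1, ← Algebra.algebraMap_eq_smul_one]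
  have h2 : IsNilpotent (∑ i ∈ Finset.univ.erase i₀, c.repr a i • c i) := by
    rw [← mem_nilradical]
    refine Ideal.sum_mem _ fun i hi => ?_
    rw [Algebra.smul_def]
    refine Ideal.mul_mem_left _ _ ?_
    rw [mem_nilradical]
    exact hc.2 i (Finset.ne_of_mem_erase hi)
  by_cases h3 : c.repr a i₀ = 0
  · right
    rw [h1, h3, map_zero, zero_add]
    exact h2.isUnit_one_sub
  · left
    rw [h1]
    exact h2.isUnit_add_left_of_commute ((isUnit_iff_ne_zero.2 h3).map (algebraMap F A))
      (Commute.all _ _)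

/-- local algebras have adapted bases -/
theorem exists_adapted {F A : Type} [Field F] [IsAlgClosed F] [CommRing A] [Algebra F A]
    [Module.Finite F A] [IsLocalRing A] : ∃ (d : ℕ) (c : Module.Basis (Fin (d + 1)) F A),
      Module.finrank F A = d + 1 ∧ Adapted c 0 := by
  classical
  let M : Submodule F A := (IsLocalRing.maximalIdeal A).restrictScalars F
  have hart : IsArtinianRing A := IsArtinianRing.of_finite F A
  let b := Module.finBasis F M
  have hint : Algebra.IsIntegral F (A ⧸ IsLocalRing.maximalIdeal A) := inferInstance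
  have hbij : Function.Bijective (algebraMap F (A ⧸ IsLocalRing.maximalIdeal A)) :=
    IsAlgClosed.algebraMap_bijective_of_isIntegral
  have hmem : ∀ x : A, ∃ r : F, x - algebraMap F A r ∈ M := by
    intro x
    obtain ⟨r, hr⟩ := hbij.2 (Ideal.Quotient.mk _ x)
    refine ⟨r, ?_⟩
    change x - algebraMap F A r ∈ IsLocalRing.maximalIdeal A
    rw [← Ideal.Quotient.eq, ← hr]
    rfl
  let v : Fin (Module.finrank F M + 1) → A := Fin.cons 1 fun i => (b i : A)
  have hli : LinearIndependent F v := by
    rw [linearIndependent_finCons]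
    refine ⟨b.linearIndependent.map' M.subtype (Submodule.ker_subtype M), fun h1 => ?_⟩
    have h2 : (1 : A) ∈ M := by
      refine (Submodule.span_le (p := M)).2 ?_ h1
      rintro _ ⟨i, rfl⟩
      exact (b i).2
    exact (Ideal.ne_top_iff_one _).1 (IsLocalRing.maximalIdeal.isMaximal A).ne_top h2
  have hsp : ⊤ ≤ Submodule.span F (Set.range v) := by
    rintro x -
    obtain ⟨r, hr⟩ := hmem x
    have h3 : ((⟨x - algebraMap F A r, hr⟩ : M) : A) = ∑ i, b.repr ⟨x - algebraMap F A r, hr⟩ i •
        (b i : A) := by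
      conv_lhs => rw [← b.sum_repr ⟨x - algebraMap F A r, hr⟩]
      rw [Submodule.coe_sum]
      rfl
    have h4 : x = r • (1 : A) + ∑ i, b.repr ⟨x - algebraMap F A r, hr⟩ i • (b i : A) := by
      rw [← h3, ← Algebra.algebraMap_eq_smul_one]
      change x = _ + (x - _)
      ring
    rw [h4]
    refine Submodule.add_mem _ (Submodule.smul_mem _ _ (Submodule.subset_span ⟨0, rfl⟩))
      (Submodule.sum_mem _ fun i _ => Submodule.smul_mem _ _ (Submodule.subset_span ⟨i.succ, rfl⟩))
  refine ⟨Module.finrank F M, Module.Basis.mk hli hsp, ?_, ?_, fun i hi => ?_⟩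
  · rw [Module.finrank_eq_card_basis (Module.Basis.mk hli hsp), Fintype.card_fin]
  · rw [Module.Basis.mk_apply]
    rfl
  · rw [Module.Basis.mk_apply]
    obtain ⟨j, rfl⟩ := Fin.exists_succ_eq.2 hi
    have h5 : (b j : A) ∈ IsLocalRing.maximalIdeal A := (b j).2
    have h6 : IsNilpotent (IsLocalRing.maximalIdeal A) := by
      refine ⟨Module.finrank F A, ?_⟩
      exact Pool.Agent.N823.maximalIdeal_pow_finrank (k := F) A
    obtain ⟨n, hn⟩ := h6
    refine ⟨n, ?_⟩
    have h7 : (b j : A) ^ n ∈ IsLocalRing.maximalIdeal A ^ n := Ideal.pow_mem_pow h5 n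
    rw [hn] at h7
    exact h7

/-- **A form of an algebra over a ring containing its structure constants.** -/
theorem exists_form' {R K B : Type} [CommRing R] [CommRing K] [Algebra R K]
    (hinj : Function.Injective (algebraMap R K)) [CommRing B] [Algebra K B] {d : ℕ}
    (c₀ : Module.Basis (Fin d) K B) (hpar : ∀ v, ∃ r, algebraMap R K r = parR c₀ v) :
    ∃ (𝒜 : Type) (_ : CommRing 𝒜) (_ : Algebra R 𝒜) (c : Module.Basis (Fin d) R 𝒜)
      (Φ : 𝒜 →+* B), Function.Injective Φ ∧ Over (algebraMap R K) c c₀ Φ := by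
  classical
  letI : Algebra R B := ((algebraMap K B).comp (algebraMap R K)).toAlgebra
  have hst : IsScalarTower R K B := IsScalarTower.of_algebraMap_eq fun _ => rfl
  let M : Submodule R B := Submodule.span R (Set.range c₀)
  have hcM : ∀ i, c₀ i ∈ M := fun i => Submodule.subset_span ⟨i, rfl⟩
  have hcoord : ∀ z : B, (∀ l, ∃ r, algebraMap R K r = c₀.repr z l) → z ∈ M := by
    intro z hz
    choose r hr using hz
    rw [← c₀.sum_repr z]
    refine Submodule.sum_mem _ fun l _ => ?_
    rw [← hr, algebraMap_smul]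
    exact Submodule.smul_mem _ _ (hcM l)
  have h1 : (1 : B) ∈ M := hcoord 1 fun l => hpar (Sum.inr l)
  have hmul : ∀ x y, x ∈ M → y ∈ M → x * y ∈ M := by
    intro x y hx hy
    induction hx using Submodule.span_induction with
    | mem x hx =>
      obtain ⟨i, rfl⟩ := hx
      induction hy using Submodule.span_induction with
      | mem y hy =>
        obtain ⟨j, rfl⟩ := hy
        exact hcoord _ fun l => hpar (Sum.inl (i, j, l))
      | zero => rw [mul_zero]; exact Submodule.zero_mem _
      | add a b _ _ ha hb => rw [mul_add]; exact Submodule.add_mem _ ha hb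
      | smul r a _ ha => rw [mul_smul_comm]; exact Submodule.smul_mem _ _ ha
    | zero => rw [zero_mul]; exact Submodule.zero_mem _
    | add a b _ _ ha hb => rw [add_mul]; exact Submodule.add_mem _ ha hb
    | smul r a _ ha => rw [smul_mul_assoc]; exact Submodule.smul_mem _ _ ha
  let 𝒜 : Subalgebra R B := M.toSubalgebra h1 hmul
  let v : Fin d → 𝒜 := fun i => ⟨c₀ i, hcM i⟩
  have hli : LinearIndependent R v := by
    have h2 : LinearIndependent R c₀ := by
      refine LinearIndependent.restrict_scalars (K := K) ?_ c₀.linearIndependent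
      intro a b hab
      apply hinj
      rw [Algebra.algebraMap_eq_smul_one, Algebra.algebraMap_eq_smul_one]
      exact hab
    exact LinearIndependent.of_comp 𝒜.val.toLinearMap h2
  have hsp : ⊤ ≤ Submodule.span R (Set.range v) := by
    rintro ⟨z, hz⟩ -
    have hz' : z ∈ M := hz
    have h3 : ∀ z (hz : z ∈ M), (⟨z, hz⟩ : 𝒜) ∈ Submodule.span R (Set.range v) := by
      intro z hz
      induction hz using Submodule.span_induction with
      | mem x hx =>
        obtain ⟨i, rfl⟩ := hx
        exact Submodule.subset_span ⟨i, rfl⟩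
      | zero => exact Submodule.zero_mem _
      | add a b ha hb iha ihb => exact Submodule.add_mem _ iha ihb
      | smul r a ha iha => exact Submodule.smul_mem _ r iha
    exact h3 z hz'
  let c : Module.Basis (Fin d) R 𝒜 := Module.Basis.mk hli hsp
  refine ⟨𝒜, inferInstance, inferInstance, c, 𝒜.val.toRingHom, Subtype.val_injective,
    fun r => rfl, fun i => ?_⟩
  change ((Module.Basis.mk hli hsp i : 𝒜) : B) = _
  rw [Module.Basis.mk_apply]

/-- **The fibres of a form.** -/
theorem exists_fibre' {R F 𝒜 : Type} [CommRing R] [CommRing F] (χ : R →+* F) [CommRing 𝒜]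
    [Algebra R 𝒜] {J : Type} (c : Module.Basis J R 𝒜) :
    ∃ (A : Type) (_ : CommRing A) (_ : Algebra F A) (c' : Module.Basis J F A) (Φ : 𝒜 →+* A),
      Over χ c c' Φ := by
  letI : Algebra R F := χ.toAlgebra
  refine ⟨F ⊗[R] 𝒜, inferInstance, inferInstance, Module.Basis.baseChange F c,
    (Algebra.TensorProduct.includeRight (R := R) (A := F) (B := 𝒜)).toRingHom, fun r => ?_,
    fun i => ?_⟩
  · change (1 : F) ⊗ₜ[R] algebraMap R 𝒜 r = _
    rw [Algebra.algebraMap_eq_smul_one, ← TensorProduct.smul_tmul,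
      Algebra.TensorProduct.algebraMap_apply, Algebra.algebraMap_self, RingHom.id_apply,
      Algebra.smul_def, mul_one]
    rfl
  · rw [Module.Basis.baseChange_apply]
    rfl

end Pool.Agent.Run7.h162.CH
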