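import Pool.Agent.Run7.h162.CH.Unif
import Pool.Agent.R836.Emb

/-!
# Q1 and the characteristic
-/

set_option autoImplicit false
set_option linter.unusedSectionVars false

namespace Pool.Agent.Run7.h162.CH

open scoped TensorProduct PowerSeries Topology
open Pool.Agent.H826R3.SM Pool.Agent.TH671.DU Pool.Agent.N86.SQ
open MvPolynomial Filter

/-! ### Uniform powers -/

theorem uniform_gen (T : ℕ → ℕ → Prop) (d : ℕ) (x : ℝ)
    (hT : ∀ (p : ℕ → ℕ) (k : ℕ → Type) [∀ i, Field (k i)] [∀ i, IsAlgClosed (k i)]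
      [∀ i, CharP (k i) (p i)], (∀ i, T i (p i)) → ∀ (K : Type) [Field K] [IsAlgClosed K]
      (φ : (∀ i, k i) →+* K), finIdeal k ≤ RingHom.ker φ → ∀ y ∈ growthRates K d, y < x) :
    ∃ n N₀ : ℕ, 1 ≤ n ∧ ∀ p, T N₀ p → ∀ (k A : Type) [Field k] [IsAlgClosed k] [CharP k p]
      [CommRing A] [Algebra k A] [Module.Finite k A] [IsLocalRing A], Module.finrank k A = d →
        (mdeg k (Pow k A n) : ℝ) < x ^ n := by
  classical
  have key : ∃ N₀ : ℕ, ∀ p, T N₀ p → ∀ (k A : Type) [Field k] [IsAlgClosed k] [CharP k p]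
      [CommRing A] [Algebra k A] [Module.Finite k A] [IsLocalRing A], Module.finrank k A = d →
        ∃ q, 1 ≤ q ∧ q ≤ N₀ ∧ (mdeg k (Pow k A q) : ℝ) < x ^ q := by
    by_contra hcon
    push Not at hcon
    have hcon' : ∀ i : ℕ, ∃ (p : ℕ) (k : Type) (_ : Field k) (A : Type) (_ : CommRing A)
        (_ : Algebra k A) (d' : ℕ) (c : Module.Basis (Fin (d' + 1)) k A), T i p ∧
        IsAlgClosed k ∧ CharP k p ∧ d = d' + 1 ∧ Adapted c 0 ∧
        ∀ q, 1 ≤ q → q ≤ i → x ^ q ≤ (mdeg k (Pow k A q) : ℝ) := by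
      intro i
      obtain ⟨p, hp, k, A, _, _, _, _, _, _, _, hd, hq⟩ := hcon i
      obtain ⟨d', c, hd', hc⟩ := exists_adapted (F := k) (A := A)
      exact ⟨p, k, inferInstance, A, inferInstance, inferInstance, d', c, hp, inferInstance,
        inferInstance, by rw [← hd, hd'], hc, hq⟩
    choose p k fk A cA aA d' c hTp hk hkp hd hc hq using hcon'
    obtain ⟨e, rfl⟩ : ∃ e, d = e + 1 := ⟨d' 0, hd 0⟩
    have hde : ∀ i, d' i = e := fun i => by
      have := hd i
      omega
    obtain rfl : d' = fun _ => e := funext hde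
    obtain ⟨q, hq1, hinf⟩ := ultra (k := k) (A := A) c hc (x := x)
      fun K _ _ φ hφ y hy => hT p k hTp K φ hφ y hy
    obtain ⟨i, hi1, hi2⟩ := hinf.exists_gt q
    exact absurd hi1 (not_lt.2 (hq i q hq1 hi2.le))
  obtain ⟨N₀, hN₀⟩ := key
  refine ⟨N₀.factorial, N₀, Nat.factorial_pos _, fun p hp k A _ _ _ _ _ _ _ hd => ?_⟩
  obtain ⟨q, hq1, hq2, hq⟩ := hN₀ p hp k A hd
  obtain ⟨j, hj⟩ := Nat.dvd_factorial hq1 hq2
  obtain ⟨j', rfl⟩ : ∃ j', j = j' + 1 := by
    rcases j with - | j'
    · rw [mul_zero] at hj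
      exact absurd hj (Nat.factorial_ne_zero _)
    · exact ⟨j', rfl⟩
  rw [hj]
  have h1 : ((mdeg k (Pow k A (q * (j' + 1))) : ℕ) : ℝ) ≤
      ((mdeg k (Pow k A q) ^ (j' + 1) : ℕ) : ℝ) := by
    exact_mod_cast mdeg_pow_mul_le (k := k) A q j'
  refine lt_of_le_of_lt h1 ?_
  rw [pow_mul]
  push_cast
  exact pow_lt_pow_left₀ hq (Nat.cast_nonneg _) (Nat.succ_ne_zero _)

theorem le_of_growthRates (p : ℕ) (K₀ K : Type) [Field K₀] [IsAlgClosed K₀] [CharP K₀ p] [Field K]
    [IsAlgClosed K] [CharP K p] {d : ℕ} {t : ℝ} (ht : ∀ y ∈ growthRates K₀ d, y ≤ t) :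
    ∀ y ∈ growthRates K d, y ≤ t := by
  intro y hy
  have h1 := closure_growthRates_eq p K₀ K d
  have h2 : y ∈ closure (growthRates K₀ d) := by
    rw [h1]
    exact subset_closure hy
  exact closure_minimal (fun z hz => ht z hz) isClosed_Iic h2

/-- **Uniform powers in a given characteristic.** -/
theorem uniform_char (p : ℕ) (K₀ : Type) [Field K₀] [IsAlgClosed K₀] [CharP K₀ p] (d : ℕ)
    {t x : ℝ} (ht : ∀ y ∈ growthRates K₀ d, y ≤ t) (hx : t < x) :
    ∃ n : ℕ, 1 ≤ n ∧ ∀ (k A : Type) [Field k] [IsAlgClosed k] [CharP k p]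
      [CommRing A] [Algebra k A] [Module.Finite k A] [IsLocalRing A], Module.finrank k A = d →
        (mdeg k (Pow k A n) : ℝ) < x ^ n := by
  obtain ⟨n, N₀, hn, h⟩ := uniform_gen (fun _ p' => p' = p) d x (by
    intro p' k _ _ _ hp' K _ _ φ hφ y hy
    obtain rfl : p' = fun _ => p := funext hp'
    have hK : CharP K p := by
      rcases Nat.eq_zero_or_pos p with rfl | hp
      · have hz : ∀ i, CharZero (k i) := fun i => CharP.charP_to_charZero (k i)
        have : CharZero K := by
          refine charZero_of_inj_zero fun n hn => ?_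
          by_contra hn0
          have h1 : (n : ∀ i, k i) * (fun i => ((n : ℕ) : k i)⁻¹) = 1 := by
            funext i
            rw [Pi.mul_apply, Pi.natCast_apply, Pi.one_apply]
            exact mul_inv_cancel₀ (Nat.cast_ne_zero.2 hn0)
          have h2 := congrArg φ h1
          rw [map_mul, map_natCast, hn, zero_mul, map_one] at h2
          exact zero_ne_one h2
        exact CharP.ofCharZero K
      · have hpp : p.Prime := CharP.char_prime_of_ne_zero (k 0) hp.ne'
        have h1 : ((p : ℕ) : K) = 0 := by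
          have h2 : ((p : ℕ) : ∀ i, k i) = 0 := by
            funext i
            rw [Pi.natCast_apply]
            exact CharP.cast_eq_zero (k i) p
          have h3 := congrArg φ h2
          rwa [map_natCast, map_zero] at h3
        exact (CharP.charP_iff_prime_eq_zero hpp).2 h1
    exact lt_of_le_of_lt (le_of_growthRates p K₀ K ht y hy) hx)
  exact ⟨n, hn, fun k A _ _ _ _ _ _ _ hd => h p rfl k A hd⟩

theorem charZero_quotient' {F : ℕ → Type} [∀ i, Field (F i)] {K : Type} [Field K]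
    (φ : (∀ i, F i) →+* K) (hφ : finIdeal F ≤ RingHom.ker φ) (p : ℕ → ℕ)
    (hp : ∀ i, p i = 0 ∨ i ≤ p i) [∀ i, CharP (F i) (p i)] : CharZero K := by
  refine charZero_of_inj_zero fun n hn => ?_
  by_contra hn0
  have hnpos : 0 < n := Nat.pos_of_ne_zero hn0
  let u : ∀ i, F i := fun i => ((n : ℕ) : F i)⁻¹
  have h1 : (1 - (n : ∀ i, F i) * u) ∈ finIdeal F := by
    change {i | (1 - (n : ∀ i, F i) * u) i ≠ 0}.Finite
    refine (Set.finite_Iic n).subset fun i hi => ?_
    by_contra hin
    have hin' : n < i := not_le.1 hin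
    apply hi
    have h2 : ((n : ℕ) : F i) ≠ 0 := by
      intro h3
      have h4 := (CharP.cast_eq_zero_iff (F i) (p i) n).1 h3
      have h5 := Nat.le_of_dvd hnpos h4
      rcases hp i with h6 | h6
      · rw [h6, zero_dvd_iff] at h4
        exact hn0 h4
      · omega
    rw [Pi.sub_apply, Pi.mul_apply, Pi.one_apply, Pi.natCast_apply]
    change 1 - ((n : ℕ) : F i) * ((n : ℕ) : F i)⁻¹ = 0
    rw [mul_inv_cancel₀ h2, sub_self]
  have h2 := hφ h1
  rw [RingHom.mem_ker, map_sub, map_one, map_mul, map_natCast, hn, zero_mul, sub_zero] at h2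
  exact one_ne_zero h2

/-- **Uniform powers in characteristic zero and in all large characteristics.** -/
theorem uniform_large (K₀ : Type) [Field K₀] [IsAlgClosed K₀] [CharZero K₀] (d : ℕ)
    {t x : ℝ} (ht : ∀ y ∈ growthRates K₀ d, y ≤ t) (hx : t < x) :
    ∃ n p₀ : ℕ, 1 ≤ n ∧ ∀ p, (p = 0 ∨ p₀ ≤ p) → ∀ (k A : Type) [Field k] [IsAlgClosed k]
      [CharP k p] [CommRing A] [Algebra k A] [Module.Finite k A] [IsLocalRing A],
      Module.finrank k A = d → (mdeg k (Pow k A n) : ℝ) < x ^ n := by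
  refine uniform_gen (fun i p' => p' = 0 ∨ i ≤ p') d x ?_
  intro p k _ _ _ hp K _ _ φ hφ y hy
  have hK := charZero_quotient' φ hφ p hp
  have h1 : CharP K 0 := CharP.ofCharZero K
  have h2 : CharP K₀ 0 := CharP.ofCharZero K₀
  exact lt_of_le_of_lt (le_of_growthRates 0 K₀ K ht y hy) hx

/-! ### The uniform gap -/

theorem uniform_gap (p d : ℕ) : ∃ ε : ℝ, 0 < ε ∧ ∀ (k : Type) [Field k] [IsAlgClosed k]
    [CharP k p], ∀ y ∈ growthRates k d, y < d + ε → y ≤ d := by
  by_cases hex : ∃ (K₀ : Type) (_ : Field K₀) (_ : IsAlgClosed K₀), CharP K₀ p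
  · obtain ⟨K₀, _, _, _⟩ := hex
    obtain ⟨ε, hε, hgap⟩ : ∃ ε : ℝ, 0 < ε ∧ ∀ x ∈ growthRates K₀ d, x < d + ε → x ≤ d := by
      have hwf : ({x ∈ growthRates K₀ d | (d : ℝ) < x}).IsWF :=
        (growthRates_isWF (k := K₀) d).mono (Set.sep_subset _ _)
      by_cases hne : ({x ∈ growthRates K₀ d | (d : ℝ) < x}).Nonempty
      · refine ⟨hwf.min hne - d, ?_, fun x hx hxd => ?_⟩
        · have := (hwf.min_mem hne).2
          linarith
        · by_contra hcon
          push Not at hcon
          have h1 := hwf.min_le hne (a := x) ⟨hx, hcon⟩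
          linarith
      · refine ⟨1, one_pos, fun x hx _ => ?_⟩
        by_contra hcon
        push Not at hcon
        exact hne ⟨x, hx, hcon⟩
    refine ⟨ε, hε, fun k _ _ _ y hy hyε => ?_⟩
    by_contra hcon
    push Not at hcon
    have h2 : y ∈ closure (growthRates K₀ d) := by
      rw [closure_growthRates_eq p K₀ k d]
      exact subset_closure hy
    rw [mem_closure_iff] at h2
    obtain ⟨z, hz1, hz2⟩ := h2 (Set.Ioo (d : ℝ) (d + ε)) isOpen_Ioo ⟨hcon, hyε⟩
    exact absurd (hgap z hz2 hz1.2) (not_le.2 hz1.1)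
  · refine ⟨1, one_pos, fun k _ _ _ => ?_⟩
    exact absurd ⟨k, inferInstance, inferInstance, inferInstance⟩ hex

/-! ### Q1 -/

/-- Q1 for the local schemes of degree `d` over `k` -/
def QOneLocal (k : Type) [Field k] (d : ℕ) : Prop :=
  ∀ (A : Type) [CommRing A] [Algebra k A] [Module.Finite k A] [IsLocalRing A],
    Module.finrank k A = d → QOne k A

theorem qOneLocal_iff (k : Type) [Field k] [IsAlgClosed k] (d : ℕ) :
    QOneLocal k d ↔ ∀ y ∈ growthRates k d, y ≤ d := by
  constructor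
  · rintro h y ⟨A, _, _, hA1, hA2, hA3, rfl⟩
    have h1 := h A hA3
    rw [qOne_iff_rate, hA3] at h1
    exact h1.le
  · intro h A _ _ _ _ hd
    rw [qOne_iff_rate, hd]
    refine le_antisymm (h _ ⟨A, inferInstance, inferInstance, inferInstance, inferInstance, hd,
      rfl⟩) ?_
    have := finrank_le_rate (k := k) A
    rwa [hd] at this

theorem qOneLocal_char (p : ℕ) (k K : Type) [Field k] [IsAlgClosed k] [CharP k p] [Field K]
    [IsAlgClosed K] [CharP K p] (d : ℕ) : QOneLocal k d ↔ QOneLocal K d := by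
  rw [qOneLocal_iff, qOneLocal_iff]
  exact ⟨fun h => le_of_growthRates p k K h, fun h => le_of_growthRates p K k h⟩

/-- Q1 for all schemes over `k` -/
def QOneAll (k : Type) [Field k] : Prop :=
  ∀ (A : Type) [CommRing A] [Algebra k A] [Module.Finite k A] [Nontrivial A], QOne k A

theorem qOneAll_iff (k : Type) [Field k] [IsAlgClosed k] : QOneAll k ↔ ∀ d, QOneLocal k d := by
  constructor
  · intro h d A _ _ _ _ _
    exact h A
  · intro h A _ _ _ _
    exact qOne_of_local (fun A _ _ _ _ => h _ A rfl) _ A rfl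

theorem qOneAll_char (p : ℕ) (k K : Type) [Field k] [IsAlgClosed k] [CharP k p] [Field K]
    [IsAlgClosed K] [CharP K p] : QOneAll k ↔ QOneAll K := by
  rw [qOneAll_iff, qOneAll_iff]
  exact forall_congr' fun d => qOneLocal_char p k K d

theorem mdeg_eq_add (k A : Type) [Field k] [IsAlgClosed k] [CommRing A] [Algebra k A]
    [Module.Finite k A] (n : ℕ) :
    (mdeg k (Pow k A n) : ℝ) = (Module.finrank k A : ℝ) ^ n + defect k (Pow k A n) := by
  rw [← fadd k (Pow k A n), finrank_Pow']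
  push_cast
  rfl

/-- the growth rate from one power -/
theorem rate_lt_of_power {k A : Type} [Field k] [IsAlgClosed k] [CommRing A] [Algebra k A]
    [Module.Finite k A] [Nontrivial A] {x : ℝ} (hx : 0 ≤ x) {n : ℕ}
    (h : (mdeg k (Pow k A n) : ℝ) < x ^ n) : rate k A < x := by
  refine lt_of_pow_lt_pow_left₀ n hx ?_
  refine lt_of_le_of_lt (rate_pow_le A n) h

/-- **Q1 in a given degree and characteristic is witnessed by one power.** -/
theorem qOneLocal_iff_uniform (p d : ℕ) : ∃ ε : ℝ, 0 < ε ∧ ∀ (K : Type) [Field K] [IsAlgClosed K]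
    [CharP K p], QOneLocal K d ↔ ∃ n : ℕ, 1 ≤ n ∧ ∀ (k A : Type) [Field k] [IsAlgClosed k]
      [CharP k p] [CommRing A] [Algebra k A] [Module.Finite k A] [IsLocalRing A],
      Module.finrank k A = d → (d : ℝ) ^ n + defect k (Pow k A n) < ((d : ℝ) + ε) ^ n := by
  obtain ⟨ε, hε, hgap⟩ := uniform_gap p d
  refine ⟨ε, hε, fun K _ _ _ => ?_⟩
  constructor
  · intro h
    obtain ⟨n, hn, h1⟩ := uniform_char p K d ((qOneLocal_iff K d).1 h)
      (by linarith : (d : ℝ) < d + ε)
    refine ⟨n, hn, fun k A _ _ _ _ _ _ _ hd => ?_⟩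
    have h2 := h1 k A hd
    rwa [mdeg_eq_add, hd] at h2
  · rintro ⟨n, hn, h⟩
    rw [qOneLocal_iff]
    rintro y ⟨A, _, _, hA1, hA2, hA3, rfl⟩
    refine hgap K _ ⟨A, inferInstance, inferInstance, hA1, hA2, hA3, rfl⟩ ?_
    refine rate_lt_of_power (n := n) (by positivity) ?_
    rw [mdeg_eq_add, hA3]
    exact h K A hA3

/-- growth rates of all schemes from the growth rates of the local schemes -/
theorem rate_le_of_local {k : Type} [Field k] [IsAlgClosed k] {N : ℕ} {C : ℝ}
    (h : ∀ (A : Type) [CommRing A] [Algebra k A] [Module.Finite k A] [IsLocalRing A],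
      Module.finrank k A ≤ N → rate k A ≤ C * Module.finrank k A) (n : ℕ) :
    ∀ (A : Type) [CommRing A] [Algebra k A] [Module.Finite k A] [Nontrivial A], n ≤ N →
      Module.finrank k A = n → rate k A ≤ C * Module.finrank k A := by
  induction n using Nat.strong_induction_on with
  | _ n ih =>
    intro A _ _ _ _ hnN hn
    by_cases hloc : IsLocalRing A
    · exact h A (by omega)
    have hart : IsArtinianRing A := IsArtinianRing.of_finite k A
    obtain ⟨e, he, hu, hu'⟩ := exists_idem hloc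
    let f : A →ₐ[k] (A ⧸ Ideal.span {e}) × (A ⧸ Ideal.span {1 - e}) :=
      (Ideal.Quotient.mkₐ k (Ideal.span {e})).prod (Ideal.Quotient.mkₐ k (Ideal.span {1 - e}))
    have hf : Function.Bijective f := crt_bijective e he
    let F := AlgEquiv.ofBijective f hf
    have hnt1 : Nontrivial (A ⧸ Ideal.span {e}) := by
      rw [Ideal.Quotient.nontrivial_iff, Ne, Ideal.span_singleton_eq_top]
      exact hu
    have hnt2 : Nontrivial (A ⧸ Ideal.span {1 - e}) := by
      rw [Ideal.Quotient.nontrivial_iff, Ne, Ideal.span_singleton_eq_top]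
      exact hu'
    have hsum : Module.finrank k A = Module.finrank k (A ⧸ Ideal.span {e}) +
        Module.finrank k (A ⧸ Ideal.span {1 - e}) := by
      rw [F.toLinearEquiv.finrank_eq, Module.finrank_prod]
    have hp1 : 0 < Module.finrank k (A ⧸ Ideal.span {e}) := Module.finrank_pos
    have hp2 : 0 < Module.finrank k (A ⧸ Ideal.span {1 - e}) := Module.finrank_pos
    have g1 := ih _ (by omega) (A ⧸ Ideal.span {e}) (by omega) rfl
    have g2 := ih _ (by omega) (A ⧸ Ideal.span {1 - e}) (by omega) rfl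
    rw [Pool.Agent.TH671.DU.rate_congr F]
    refine (rate_prod_le _ _).trans ?_
    rw [hsum]
    push_cast
    linarith

end Pool.Agent.Run7.h162.CH
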