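import Pool.Agent.Run7.h162.CH.Fin2

/-!
# Uniform bounds for all powers
-/

set_option autoImplicit false
set_option linter.unusedSectionVars false

namespace Pool.Agent.Run7.h162.CH

open scoped TensorProduct PowerSeries Topology
open Pool.Agent.H826R3.SM Pool.Agent.TH671.DU Pool.Agent.N86.SQ
open MvPolynomial Filter

theorem one_lt_of_bound {K : Type} [Field K] [IsAlgClosed K] {d : ℕ} (hd : 1 ≤ d) {t x : ℝ}
    (ht : ∀ y ∈ growthRates K d, y ≤ t) (hx : t < x) : 1 ≤ x := by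
  obtain ⟨y, hy⟩ := growthRates_nonempty K hd
  have h1 := ht y hy
  obtain ⟨A, _, _, hA1, hA2, hA3, rfl⟩ := hy
  have h2 := one_le_rate (k := K) A
  linarith

/-- **Uniform bounds in a given characteristic.** -/
theorem uniform_bound (p : ℕ) (K₀ : Type) [Field K₀] [IsAlgClosed K₀] [CharP K₀ p] (d : ℕ)
    {t x : ℝ} (ht : ∀ y ∈ growthRates K₀ d, y ≤ t) (hx : t < x) :
    ∃ C : ℝ, ∀ (k A : Type) [Field k] [IsAlgClosed k] [CharP k p]
      [CommRing A] [Algebra k A] [Module.Finite k A] [IsLocalRing A], Module.finrank k A = d →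
        ∀ n : ℕ, (d : ℝ) ^ n + defect k (Pow k A n) ≤ C * x ^ n := by
  obtain ⟨q, hq, h⟩ := uniform_char p K₀ d ht hx
  refine ⟨(((d + 1) ^ d) ^ q : ℕ), fun k A _ _ _ _ _ _ _ hd n => ?_⟩
  have hd1 : 1 ≤ d := by
    rw [← hd]
    exact Module.finrank_pos
  have h1 := mdeg_le_of_power hd (one_lt_of_bound hd1 ht hx) hq (h k A hd) n
  rwa [mdeg_eq_add, hd] at h1

/-- **Uniform bounds in characteristic zero and in all large characteristics.** -/
theorem uniform_bound_large (K₀ : Type) [Field K₀] [IsAlgClosed K₀] [CharZero K₀] (d : ℕ)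
    {t x : ℝ} (ht : ∀ y ∈ growthRates K₀ d, y ≤ t) (hx : t < x) :
    ∃ (C : ℝ) (p₀ : ℕ), ∀ p, (p = 0 ∨ p₀ ≤ p) → ∀ (k A : Type) [Field k] [IsAlgClosed k]
      [CharP k p] [CommRing A] [Algebra k A] [Module.Finite k A] [IsLocalRing A],
      Module.finrank k A = d →
        ∀ n : ℕ, (d : ℝ) ^ n + defect k (Pow k A n) ≤ C * x ^ n := by
  obtain ⟨q, p₀, hq, h⟩ := uniform_large K₀ d ht hx
  refine ⟨(((d + 1) ^ d) ^ q : ℕ), p₀, fun p hp k A _ _ _ _ _ _ _ hd n => ?_⟩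
  have hd1 : 1 ≤ d := by
    rw [← hd]
    exact Module.finrank_pos
  have h1 := mdeg_le_of_power hd (one_lt_of_bound hd1 ht hx) hq (h p hp k A hd) n
  rwa [mdeg_eq_add, hd] at h1

end Pool.Agent.Run7.h162.CH
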