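import Pool.Agent.Run7.h162.CH.Rates

/-!
# Forms of algebras over subrings, fibres, density of points
-/

set_option autoImplicit false
set_option linter.unusedSectionVars false

namespace Pool.Agent.Run7.h162.CH

open scoped TensorProduct PowerSeries Topology
open Pool.Agent.H826R3.SM Pool.Agent.TH671.DU Pool.Agent.N86.SQ
open MvPolynomial

/-- **A form of an algebra over a ring containing its structure constants.** -/
theorem exists_form {R K B : Type} [CommRing R] [Field K] [Algebra R K]
    (hinj : Function.Injective (algebraMap R K)) [CommRing B] [Algebra K B] {d : ℕ}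
    (c₀ : Module.Basis (Fin d) K B) (hpar : ∀ v, ∃ r, algebraMap R K r = par c₀ v) :
    ∃ (𝒜 : Type) (_ : CommRing 𝒜) (_ : Algebra R 𝒜) (c : Module.Basis (Fin d) R 𝒜),
      (∀ i j l, algebraMap R K (c.repr (c i * c j) l) = c₀.repr (c₀ i * c₀ j) l) ∧
      (∀ l, algebraMap R K (c.repr 1 l) = c₀.repr 1 l) := by
  classical
  letI : Algebra R B := ((algebraMap K B).comp (algebraMap R K)).toAlgebra
  have hst : IsScalarTower R K B := IsScalarTower.of_algebraMap_eq fun _ => rfl
  let M : Submodule R B := Submodule.span R (Set.range c₀)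
  have hcM : ∀ i, c₀ i ∈ M := fun i => Submodule.subset_span ⟨i, rfl⟩
  have hcoord : ∀ z : B, (∀ l, ∃ r, algebraMap R K r = c₀.repr z l) → z ∈ M := by
    intro z hz
    choose r hr using hz
    rw [← c₀.sum_repr z]
    refine Submodule.sum_mem _ fun l _ => ?_
    rw [← hr, algebraMap_smul]
    exact Submodule.smul_mem _ _ (hcM l)
  have h1 : (1 : B) ∈ M := hcoord 1 fun l => hpar (Sum.inr l)
  have hmul : ∀ x y, x ∈ M → y ∈ M → x * y ∈ M := by
    intro x y hx hy
    induction hx using Submodule.span_induction with
    | mem x hx =>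
      obtain ⟨i, rfl⟩ := hx
      induction hy using Submodule.span_induction with
      | mem y hy =>
        obtain ⟨j, rfl⟩ := hy
        exact hcoord _ fun l => hpar (Sum.inl (i, j, l))
      | zero => rw [mul_zero]; exact Submodule.zero_mem _
      | add a b _ _ ha hb => rw [mul_add]; exact Submodule.add_mem _ ha hb
      | smul r a _ ha => rw [mul_smul_comm]; exact Submodule.smul_mem _ _ ha
    | zero => rw [zero_mul]; exact Submodule.zero_mem _
    | add a b _ _ ha hb => rw [add_mul]; exact Submodule.add_mem _ ha hb
    | smul r a _ ha => rw [smul_mul_assoc]; exact Submodule.smul_mem _ _ ha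
  let 𝒜 : Subalgebra R B := M.toSubalgebra h1 hmul
  let v : Fin d → 𝒜 := fun i => ⟨c₀ i, hcM i⟩
  have hli : LinearIndependent R v := by
    have h2 : LinearIndependent R c₀ := by
      refine LinearIndependent.restrict_scalars (K := K) ?_ c₀.linearIndependent
      intro a b hab
      apply hinj
      rw [Algebra.algebraMap_eq_smul_one, Algebra.algebraMap_eq_smul_one]
      exact hab
    exact LinearIndependent.of_comp 𝒜.val.toLinearMap h2
  have hsp : ⊤ ≤ Submodule.span R (Set.range v) := by
    rintro ⟨z, hz⟩ -
    have hz' : z ∈ M := hz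
    have h3 : ∀ z (hz : z ∈ M), (⟨z, hz⟩ : 𝒜) ∈ Submodule.span R (Set.range v) := by
      intro z hz
      induction hz using Submodule.span_induction with
      | mem x hx =>
        obtain ⟨i, rfl⟩ := hx
        exact Submodule.subset_span ⟨i, rfl⟩
      | zero => exact Submodule.zero_mem _
      | add a b ha hb iha ihb => exact Submodule.add_mem _ iha ihb
      | smul r a ha iha => exact Submodule.smul_mem _ r iha
    exact h3 z hz'
  let c : Module.Basis (Fin d) R 𝒜 := Module.Basis.mk hli hsp
  have hc : ∀ i, (c i : B) = c₀ i := fun i => by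
    rw [Module.Basis.mk_apply]
  have hrepr : ∀ (z : 𝒜) l, algebraMap R K (c.repr z l) = c₀.repr (z : B) l := by
    intro z l
    have h4 : (z : B) = ∑ i, algebraMap R K (c.repr z i) • c₀ i := by
      conv_lhs => rw [← c.sum_repr z]
      rw [← Subalgebra.val_apply, map_sum]
      refine Finset.sum_congr rfl fun i _ => ?_
      rw [map_smul, Subalgebra.val_apply, hc, algebraMap_smul]
    have h5 := congrArg (fun w => c₀.repr w l) h4
    beta_reduce at h5
    rw [h5, c₀.repr_sum_self]
  refine ⟨𝒜, inferInstance, inferInstance, c, fun i j l => ?_, fun l => ?_⟩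
  · rw [hrepr, ← hc, ← hc]
    rfl
  · rw [hrepr]
    rfl

/-- **The fibres of a form.** -/
theorem exists_fibre {R F 𝒜 : Type} [CommRing R] [Field F] (χ : R →+* F) [CommRing 𝒜]
    [Algebra R 𝒜] {d : ℕ} (c : Module.Basis (Fin d) R 𝒜) :
    ∃ (A : Type) (_ : CommRing A) (_ : Algebra F A) (c' : Module.Basis (Fin d) F A),
      (∀ i j l, par c' (Sum.inl (i, j, l)) = χ (c.repr (c i * c j) l)) ∧
      (∀ l, par c' (Sum.inr l) = χ (c.repr 1 l)) := by
  letI : Algebra R F := χ.toAlgebra
  refine ⟨F ⊗[R] 𝒜, inferInstance, inferInstance, Module.Basis.baseChange F c, fun i j l => ?_,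
    fun l => ?_⟩
  · change (Module.Basis.baseChange F c).repr
      (Module.Basis.baseChange F c i * Module.Basis.baseChange F c j) l = _
    rw [Module.Basis.baseChange_apply, Module.Basis.baseChange_apply,
      Algebra.TensorProduct.tmul_mul_tmul, mul_one, Module.Basis.baseChange_repr_tmul,
      Algebra.smul_def, mul_one]
    rfl
  · change (Module.Basis.baseChange F c).repr ((1 : F) ⊗ₜ[R] (1 : 𝒜)) l = _
    rw [Module.Basis.baseChange_repr_tmul, Algebra.smul_def, mul_one]
    rfl

/-- **Density of the points over the smaller field.** -/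
theorem density {k K ι : Type} [Field k] [IsAlgClosed k] [Field K] [Algebra k K] [Finite ι]
    (p : ι → K) (Q : MvPolynomial ι K)
    (h : ∀ y : ι → k, (∀ f : MvPolynomial ι k, aeval p f = 0 → eval y f = 0) →
      eval (fun i => algebraMap k K (y i)) Q = 0) : eval p Q = 0 := by
  classical
  let b := Module.Basis.ofVectorSpace k K
  let J : Finset (Module.Basis.ofVectorSpaceIndex k K) :=
    Q.support.biUnion fun s => (b.repr (coeff s Q)).support
  let q : Module.Basis.ofVectorSpaceIndex k K → MvPolynomial ι k := fun j =>
    ∑ s ∈ Q.support, monomial s (b.repr (coeff s Q) j)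
  have key : ∀ x : ι → K, eval x Q = ∑ j ∈ J, aeval x (q j) * b j := by
    intro x
    have h1 : ∀ s ∈ Q.support, coeff s Q = ∑ j ∈ J, algebraMap k K (b.repr (coeff s Q) j) * b j := by
      intro s hs
      have h2 := b.linearCombination_repr (coeff s Q)
      rw [Finsupp.linearCombination_apply, Finsupp.sum_of_support_subset (s := J)] at h2
      · conv_lhs => rw [← h2]
        refine Finset.sum_congr rfl fun j _ => ?_
        rw [Algebra.smul_def]
      · exact Finset.subset_biUnion_of_mem (fun s => (b.repr (coeff s Q)).support) hs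
      · intro i _
        exact zero_smul _ _
    have h3 : eval x Q = ∑ s ∈ Q.support, coeff s Q * s.prod fun i e => x i ^ e := by
      conv_lhs => rw [Q.as_sum]
      rw [map_sum]
      exact Finset.sum_congr rfl fun s _ => eval_monomial
    rw [h3]
    have h4 : ∀ s ∈ Q.support, coeff s Q * (s.prod fun i e => x i ^ e) =
        ∑ j ∈ J, algebraMap k K (b.repr (coeff s Q) j) * (s.prod fun i e => x i ^ e) * b j := by
      intro s hs
      conv_lhs => rw [h1 s hs]
      rw [Finset.sum_mul]
      exact Finset.sum_congr rfl fun j _ => by ring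
    rw [Finset.sum_congr rfl h4, Finset.sum_comm]
    refine Finset.sum_congr rfl fun j _ => ?_
    simp only [q]
    rw [map_sum, Finset.sum_mul]
    refine Finset.sum_congr rfl fun s _ => ?_
    rw [aeval_monomial]
  have hq : ∀ j ∈ J, aeval p (q j) = 0 := by
    intro j hj
    let I : Ideal (MvPolynomial ι k) := RingHom.ker (aeval p : MvPolynomial ι k →ₐ[k] K)
    have hI : I.IsPrime := RingHom.ker_isPrime _
    have h5 : vanishingIdeal k (zeroLocus k I) = I := by
      rw [vanishingIdeal_zeroLocus_eq_radical, hI.radical]
    have h6 : q j ∈ vanishingIdeal k (zeroLocus k I) := by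
      rw [mem_vanishingIdeal_iff]
      intro y hy
      have hy' : ∀ f : MvPolynomial ι k, aeval p f = 0 → eval y f = 0 := by
        intro f hf
        have := hy f hf
        rwa [aeval_eq_eval] at this
      have h7 := h y hy'
      rw [key] at h7
      have h8 : ∀ f : MvPolynomial ι k, aeval (fun i => algebraMap k K (y i)) f =
          algebraMap k K (eval y f) := by
        intro f
        have h9 : (aeval (fun i => algebraMap k K (y i)) : MvPolynomial ι k →ₐ[k] K) =
            (Algebra.ofId k K).comp (aeval y) := by
          ext i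
          simp
        rw [h9, AlgHom.comp_apply, aeval_eq_eval]
        rfl
      simp only [h8, ← Algebra.smul_def] at h7
      have h10 := linearIndependent_iff'.1 b.linearIndependent J _ h7 j hj
      rw [aeval_eq_eval]
      exact h10
    rw [h5] at h6
    exact h6
  rw [key]
  exact Finset.sum_eq_zero fun j hj => by rw [hq j hj, zero_mul]

end Pool.Agent.Run7.h162.CH
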