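import Pool.Agent.Run7.h162.CH.Gen

/-!
# Solutions at general points
-/

set_option autoImplicit false
set_option linter.unusedSectionVars false

namespace Pool.Agent.Run7.h162.CH

open scoped TensorProduct PowerSeries Topology
open Pool.Agent.H826R3.SM Pool.Agent.TH671.DU Pool.Agent.N86.SQ
open MvPolynomial

/-- homomorphisms to algebraically closed fields extend to integral extensions -/
theorem exists_ext_integral {R S k : Type} [CommRing R] [CommRing S] [Algebra R S]
    [Algebra.IsIntegral R S] (hinj : Function.Injective (algebraMap R S)) [Field k]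
    [IsAlgClosed k] (φ : R →+* k) : ∃ φ' : S →+* k, ∀ r, φ' (algebraMap R S r) = φ r := by
  classical
  have hP : (RingHom.ker φ).IsPrime := RingHom.ker_isPrime φ
  obtain ⟨Q, -, hQ, hQP⟩ := Ideal.exists_ideal_over_prime_of_isIntegral (RingHom.ker φ)
    (⊥ : Ideal S) (by
      rw [← RingHom.ker_eq_comap_bot, (RingHom.injective_iff_ker_eq_bot _).1 hinj]
      exact bot_le)
  letI : Algebra R k := φ.toAlgebra
  let A1 : Type := R ⧸ RingHom.ker φ
  let B1 : Type := S ⧸ Q
  have hQP' : RingHom.ker φ = Q.comap (algebraMap R S) := hQP.symm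
  letI : Algebra A1 B1 := (Ideal.quotientMap Q (algebraMap R S) hQP'.le).toAlgebra
  have hAB : Function.Injective (algebraMap A1 B1) := Ideal.quotientMap_injective' hQP'.ge
  letI : Algebra A1 k := (RingHom.kerLift φ).toAlgebra
  have hAk : Function.Injective (algebraMap A1 k) := RingHom.kerLift_injective φ
  have hint : Algebra.IsIntegral A1 B1 := by
    refine ⟨fun z => ?_⟩
    obtain ⟨s, rfl⟩ := Ideal.Quotient.mk_surjective z
    obtain ⟨p, hp, hps⟩ := Algebra.IsIntegral.isIntegral (R := R) s
    refine ⟨p.map (Ideal.Quotient.mk _), hp.map _, ?_⟩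
    rw [Polynomial.eval₂_map]
    have h1 := congrArg (Ideal.Quotient.mk Q) hps
    rw [map_zero, Polynomial.hom_eval₂] at h1
    exact h1
  have hdB : IsDomain B1 := Ideal.Quotient.isDomain Q
  have hf1 : FaithfulSMul A1 B1 := (faithfulSMul_iff_algebraMap_injective _ _).mpr hAB
  have hf2 : FaithfulSMul A1 k := (faithfulSMul_iff_algebraMap_injective _ _).mpr hAk
  have halg : Algebra.IsAlgebraic A1 B1 := Algebra.IsIntegral.isAlgebraic
  let j : B1 →ₐ[A1] k := IsAlgClosed.lift
  refine ⟨j.toRingHom.comp (Ideal.Quotient.mk Q), fun r => ?_⟩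
  have h2 := j.commutes (Ideal.Quotient.mk _ r)
  exact h2

/-- **Solutions at general points.** -/
theorem Sol.generic {R K σ J : Type} [CommRing R] [IsDomain R] [Field K] [IsAlgClosed K]
    [Fintype σ] [Finite J] (ψ : R →+* K) (hψ : Function.Injective ψ) {κ : J → (σ →₀ ℕ) → R}
    {m W : ℕ} (h : Sol ψ κ m W) : ∃ f : R, f ≠ 0 ∧ ∀ (k : Type) [Field k] [IsAlgClosed k]
      (φ : R →+* k), φ f ≠ 0 → Sol φ κ m W := by
  classical
  have := Fintype.ofFinite J
  letI : Algebra R K := ψ.toAlgebra
  have hfK : FaithfulSMul R K := (faithfulSMul_iff_algebraMap_injective _ _).mpr hψ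
  let L : Type := AlgebraicClosure (FractionRing R)
  have hinjL : Function.Injective (algebraMap R L) := by
    rw [IsScalarTower.algebraMap_eq R (FractionRing R) L]
    exact (algebraMap (FractionRing R) L).injective.comp (IsFractionRing.injective R _)
  have hfL : FaithfulSMul R L := (faithfulSMul_iff_algebraMap_injective _ _).mpr hinjL
  have halg1 : Algebra.IsAlgebraic R (FractionRing R) :=
    IsLocalization.isAlgebraic _ (nonZeroDivisors R)
  have halg : Algebra.IsAlgebraic R L := Algebra.IsAlgebraic.trans R (FractionRing R) L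
  let j : L →ₐ[R] K := IsAlgClosed.lift
  letI : Algebra L K := j.toRingHom.toAlgebra
  -- a solution over the algebraic closure
  have hL : Sol (algebraMap R L) κ m W := by
    have h1 : Sol (algebraMap L K) (fun j s => algebraMap R L (κ j s)) m W := by
      obtain ⟨p, c, hpc⟩ := h
      refine ⟨p, c, fun j' s hs => ?_⟩
      rw [← hpc j' s hs]
      exact j.commutes (κ j' s)
    exact h1.descend
  obtain ⟨p, c, hpc⟩ := hL
  -- the coordinates of the solution
  let T : Finset L := (Finset.univ.image fun z : Fin W × σ => p z.1 z.2) ∪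
    (Finset.univ.image fun z : J × Fin (m + 1) × Fin W => c z.1 z.2.1 z.2.2)
  obtain ⟨f, hf0, hf⟩ := Algebra.IsAlgebraic.exists_integral_multiples R T
  refine ⟨f, hf0, ?_⟩
  intro k _ _ φ hφ
  let Rf : Type := Localization.Away f
  have hfle : Submonoid.powers f ≤ nonZeroDivisors R := powers_le_nonZeroDivisors_of_noZeroDivisors hf0
  have hinjf : Function.Injective (algebraMap R Rf) := IsLocalization.injective Rf hfle
  have huL : IsUnit (algebraMap R L f) := isUnit_iff_ne_zero.2 (by
    rw [Ne, map_eq_zero_iff _ hinjL]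
    exact hf0)
  letI : Algebra Rf L := (IsLocalization.Away.lift f huL).toAlgebra
  have hRfL : ∀ r, algebraMap Rf L (algebraMap R Rf r) = algebraMap R L r := fun r =>
    IsLocalization.Away.lift_eq f huL r
  have hst : IsScalarTower R Rf L := IsScalarTower.of_algebraMap_eq fun r => (hRfL r).symm
  have hinjfL : Function.Injective (algebraMap Rf L) := by
    have h2 := (IsLocalization.lift_injective_iff (M := Submonoid.powers f) (S := Rf)
      (g := algebraMap R L) (by
        rintro ⟨_, n, rfl⟩
        change IsUnit (algebraMap R L (f ^ n))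
        rw [map_pow]
        exact huL.pow n)).2 (fun a b => ⟨fun hab => by rw [hinjf hab], fun hab => by
          rw [hinjL hab]⟩)
    exact h2
  have hint : ∀ z ∈ T, IsIntegral Rf z := by
    intro z hz
    have h3 : IsIntegral Rf (f • z) := (hf z hz).tower_top
    obtain ⟨g, hg⟩ : ∃ g : Rf, algebraMap R Rf f * g = 1 :=
      (IsLocalization.Away.algebraMap_isUnit f).exists_right_inv
    have h4 : z = g • (f • z) := by
      rw [← IsScalarTower.algebraMap_smul Rf f z, smul_smul, mul_comm, hg, one_smul]
    rw [h4]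
    exact h3.smul g
  let S := integralClosure Rf L
  have hSinj : Function.Injective (algebraMap Rf S) := fun a b hab => hinjfL (by
    have := congrArg (algebraMap S L) hab
    exact this)
  -- the extension of the homomorphism
  let φf : Rf →+* k := IsLocalization.Away.lift f (isUnit_iff_ne_zero.2 hφ)
  have hφf : ∀ r, φf (algebraMap R Rf r) = φ r := fun r => IsLocalization.Away.lift_eq f _ r
  obtain ⟨μ, hμ⟩ := exists_ext_integral hSinj φf
  have hpS : ∀ w v, p w v ∈ S := fun w v => hint _ (Finset.mem_union_left _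
    (Finset.mem_image.2 ⟨(w, v), Finset.mem_univ _, rfl⟩))
  have hcS : ∀ j e w, c j e w ∈ S := fun j e w => hint _ (Finset.mem_union_right _
    (Finset.mem_image.2 ⟨(j, e, w), Finset.mem_univ _, rfl⟩))
  refine ⟨fun w v => μ ⟨p w v, hpS w v⟩, fun j e w => μ ⟨c j e w, hcS j e w⟩, fun j s hs => ?_⟩
  have h5 : algebraMap Rf S (algebraMap R Rf (κ j s)) =
      ∑ w, (⟨c j ⟨s.degree, by omega⟩ w, hcS _ _ _⟩ : S) *
        ∏ v, (⟨p w v, hpS w v⟩ : S) ^ s v := by
    apply Subtype.val_injective
    have h6 := hpc j s hs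
    rw [← hRfL] at h6
    have h7 : ((∑ w, (⟨c j ⟨s.degree, by omega⟩ w, hcS _ _ _⟩ : S) *
        ∏ v, (⟨p w v, hpS w v⟩ : S) ^ s v : S) : L) =
        ∑ w, c j ⟨s.degree, by omega⟩ w * ∏ v, p w v ^ s v := by
      rw [← Subalgebra.val_apply, map_sum]
      refine Finset.sum_congr rfl fun w _ => ?_
      rw [map_mul, map_prod]
      simp only [map_pow, Subalgebra.val_apply]
    rw [h7, ← h6]
    rfl
  have h8 := congrArg μ h5
  rw [hμ, hφf, map_sum] at h8
  rw [h8]
  refine Finset.sum_congr rfl fun w _ => ?_
  rw [map_mul, map_prod]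
  simp only [map_pow]

end Pool.Agent.Run7.h162.CH
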