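import Pool.Agent.Run7.h162.CH.Fin3

/-!
# The maximal growth rate of the local schemes of given degree in given characteristic
-/

set_option autoImplicit false
set_option linter.unusedSectionVars false

namespace Pool.Agent.Run7.h162.CH

open scoped TensorProduct PowerSeries Topology
open Pool.Agent.H826R3.SM Pool.Agent.TH671.DU Pool.Agent.N86.SQ
open MvPolynomial Filter

/-- the growth rates of the local schemes of degree `d` over the algebraically closed fields of
characteristic `p` -/
def allRates (d p : ℕ) : Set ℝ :=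
  {x | ∃ (k : Type) (_ : Field k) (_ : IsAlgClosed k) (_ : CharP k p), x ∈ growthRates k d}

theorem growthRates_subset_allRates (k : Type) [Field k] [IsAlgClosed k] (d p : ℕ) [CharP k p] :
    growthRates k d ⊆ allRates d p := fun _ hx =>
  ⟨k, inferInstance, inferInstance, inferInstance, hx⟩

theorem bddAbove_allRates (d p : ℕ) : BddAbove (allRates d p) := by
  by_cases hex : ∃ (K₀ : Type) (_ : Field K₀) (_ : IsAlgClosed K₀), CharP K₀ p
  · obtain ⟨K₀, _, _, _⟩ := hex
    obtain ⟨t, ht⟩ := bddAbove_growthRates K₀ d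
    refine ⟨t, ?_⟩
    rintro x ⟨k, _, _, _, hx⟩
    exact le_of_growthRates p K₀ k (fun y hy => ht hy) x hx
  · refine ⟨0, ?_⟩
    rintro x ⟨k, _, _, _, hx⟩
    exact absurd ⟨k, inferInstance, inferInstance, inferInstance⟩ hex

/-- the supremum of the growth rates of the local schemes of degree `d` over the algebraically
closed fields of characteristic `p` -/
noncomputable def maxRate (d p : ℕ) : ℝ := sSup (allRates d p)

theorem isLUB_maxRate (k : Type) [Field k] [IsAlgClosed k] (p : ℕ) [CharP k p] {d : ℕ}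
    (hd : 1 ≤ d) : IsLUB (growthRates k d) (maxRate d p) := by
  constructor
  · intro x hx
    exact le_csSup (bddAbove_allRates d p) (growthRates_subset_allRates k d p hx)
  · intro b hb
    refine csSup_le ((growthRates_nonempty k hd).mono (growthRates_subset_allRates k d p)) ?_
    rintro x ⟨K, _, _, _, hx⟩
    exact le_of_growthRates p k K (fun y hy => hb hy) x hx

theorem maxRate_mem (k : Type) [Field k] [IsAlgClosed k] [Uncountable k] (p : ℕ) [CharP k p]
    {d : ℕ} (hd : 1 ≤ d) : maxRate d p ∈ growthRates k d := by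
  have h1 := (isLUB_maxRate k p hd).csSup_eq (growthRates_nonempty k hd)
  rw [← h1]
  exact (isClosed_growthRates k d).csSup_mem (growthRates_nonempty k hd)
    (bddAbove_growthRates k d)

theorem maxRate_le {d p : ℕ} {t : ℝ} (ht : 0 ≤ t) (h : ∀ x ∈ allRates d p, x ≤ t) :
    maxRate d p ≤ t := by
  rcases (allRates d p).eq_empty_or_nonempty with h0 | h0
  · unfold maxRate
    rw [h0, Real.sSup_empty]
    exact ht
  · exact csSup_le h0 h

/-- **The maximal growth rate and single powers.** -/
theorem maxRate_lt_iff {d p : ℕ} {x : ℝ} (hx : 0 < x) : maxRate d p < x ↔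
    ∃ n : ℕ, 1 ≤ n ∧ ∀ (k A : Type) [Field k] [IsAlgClosed k] [CharP k p] [CommRing A]
      [Algebra k A] [Module.Finite k A] [IsLocalRing A], Module.finrank k A = d →
        (d : ℝ) ^ n + defect k (Pow k A n) < x ^ n := by
  classical
  constructor
  · intro h
    by_cases hex : ∃ (K₀ : Type) (_ : Field K₀) (_ : IsAlgClosed K₀), CharP K₀ p
    · obtain ⟨K₀, _, _, _⟩ := hex
      obtain ⟨n, hn, h1⟩ := uniform_char p K₀ d (t := maxRate d p) (fun y hy =>
        le_csSup (bddAbove_allRates d p) (growthRates_subset_allRates K₀ d p hy)) h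
      refine ⟨n, hn, fun k A _ _ _ _ _ _ _ hd => ?_⟩
      have h2 := h1 k A hd
      rwa [mdeg_eq_add, hd] at h2
    · exact ⟨1, le_rfl, fun k A _ _ _ _ _ _ _ _ =>
        absurd ⟨k, inferInstance, inferInstance, inferInstance⟩ hex⟩
  · rintro ⟨n, hn, h⟩
    -- the largest value
    let S : Set ℕ := {D | ∃ (k A : Type) (_ : Field k) (_ : IsAlgClosed k) (_ : CharP k p)
      (_ : CommRing A) (_ : Algebra k A), Module.Finite k A ∧ IsLocalRing A ∧
      Module.finrank k A = d ∧ D = mdeg k (Pow k A n)}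
    have hS : S ⊆ Set.Iic (((d + 1) ^ d) ^ n) := by
      rintro D ⟨k, A, _, _, _, _, _, hA1, hA2, hA3, rfl⟩
      exact mdeg_pow_le_uniform hA3 n
    have hSfin : S.Finite := (Set.finite_Iic _).subset hS
    rcases S.eq_empty_or_nonempty with h0 | h0
    · refine lt_of_le_of_lt (maxRate_le le_rfl ?_) hx
      rintro y ⟨k, _, _, _, A, _, _, hA1, hA2, hA3, rfl⟩
      have h1 : mdeg k (Pow k A n) ∈ S :=
        ⟨k, A, inferInstance, inferInstance, inferInstance, inferInstance, inferInstance, hA1,
          hA2, hA3, rfl⟩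
      rw [h0] at h1
      exact absurd h1 (Set.notMem_empty _)
    · obtain ⟨D, hD, hmax⟩ := hSfin.exists_maximal h0
      have hmax' : ∀ D' ∈ S, D' ≤ D := by
        intro D' hD'
        rcases le_total D' D with h1 | h1
        · exact h1
        · exact hmax hD' h1
      have hDx : (D : ℝ) < x ^ n := by
        obtain ⟨k, A, _, _, _, _, _, hA1, hA2, hA3, rfl⟩ := hD
        rw [mdeg_eq_add, hA3]
        exact h k A hA3
      have hn0 : n ≠ 0 := by omega
      have h2 : ∀ y ∈ allRates d p, y ≤ (D : ℝ) ^ (1 / (n : ℝ)) := by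
        rintro y ⟨k, _, _, _, A, _, _, hA1, hA2, hA3, rfl⟩
        have h3 := hmax' _ ⟨k, A, inferInstance, inferInstance, inferInstance, inferInstance,
          inferInstance, hA1, hA2, hA3, rfl⟩
        have h4 : rate k A ^ n ≤ (D : ℝ) := (rate_pow_le A n).trans (by exact_mod_cast h3)
        have h5 := one_le_rate (k := k) A
        calc rate k A = (rate k A ^ n) ^ (1 / (n : ℝ)) := by
              rw [← Real.rpow_natCast, ← Real.rpow_mul (by linarith),
                mul_one_div_cancel (by exact_mod_cast hn0), Real.rpow_one]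
          _ ≤ (D : ℝ) ^ (1 / (n : ℝ)) := Real.rpow_le_rpow (by positivity) h4 (by positivity)
      refine lt_of_le_of_lt (maxRate_le (by positivity) h2) ?_
      have h6 : (D : ℝ) ^ (1 / (n : ℝ)) < (x ^ n) ^ (1 / (n : ℝ)) :=
        Real.rpow_lt_rpow (Nat.cast_nonneg _) hDx (by positivity)
      rwa [← Real.rpow_natCast x n, ← Real.rpow_mul hx.le,
        mul_one_div_cancel (by exact_mod_cast hn0), Real.rpow_one] at h6

/-- **Uniform bounds.** -/
theorem maxRate_bound {d p : ℕ} {x : ℝ} (hx : maxRate d p < x) :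
    ∃ C : ℝ, ∀ (k A : Type) [Field k] [IsAlgClosed k] [CharP k p]
      [CommRing A] [Algebra k A] [Module.Finite k A] [IsLocalRing A], Module.finrank k A = d →
        ∀ n : ℕ, (d : ℝ) ^ n + defect k (Pow k A n) ≤ C * x ^ n := by
  by_cases hex : ∃ (K₀ : Type) (_ : Field K₀) (_ : IsAlgClosed K₀), CharP K₀ p
  · obtain ⟨K₀, _, _, _⟩ := hex
    exact uniform_bound p K₀ d (t := maxRate d p) (fun y hy =>
      le_csSup (bddAbove_allRates d p) (growthRates_subset_allRates K₀ d p hy)) hx
  · exact ⟨0, fun k A _ _ _ _ _ _ _ _ =>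
      absurd ⟨k, inferInstance, inferInstance, inferInstance⟩ hex⟩

/-- **Large characteristics.** -/
theorem maxRate_large {d : ℕ} {x : ℝ} (hx : maxRate d 0 < x) :
    ∃ (C : ℝ) (p₀ : ℕ), (∀ p, p₀ ≤ p → maxRate d p < x) ∧
      ∀ p, (p = 0 ∨ p₀ ≤ p) → ∀ (k A : Type) [Field k] [IsAlgClosed k]
      [CharP k p] [CommRing A] [Algebra k A] [Module.Finite k A] [IsLocalRing A],
      Module.finrank k A = d →
        ∀ n : ℕ, (d : ℝ) ^ n + defect k (Pow k A n) ≤ C * x ^ n := by
  let K₀ : Type := AlgebraicClosure ℚ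
  have hK : CharP K₀ 0 := CharP.ofCharZero K₀
  have hK' : CharZero K₀ := inferInstance
  have ht : ∀ y ∈ growthRates K₀ d, y ≤ maxRate d 0 := fun y hy =>
      le_csSup (bddAbove_allRates d 0) (growthRates_subset_allRates K₀ d 0 hy)
  obtain ⟨C, p₀, h1⟩ := uniform_bound_large K₀ d ht hx
  obtain ⟨n, p₁, hn, h2⟩ := uniform_large K₀ d ht hx
  have hx0 : 0 < x := by
    rcases Nat.eq_zero_or_pos d with hd | hd
    · have h3 : allRates d 0 = ∅ := by
        rw [Set.eq_empty_iff_forall_notMem]
        rintro y ⟨k, _, _, _, A, _, _, hA1, hA2, hA3, rfl⟩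
        have : 0 < Module.finrank k A := Module.finrank_pos
        omega
      unfold maxRate at hx
      rwa [h3, Real.sSup_empty] at hx
    · have := one_lt_of_bound hd ht hx
      linarith
  refine ⟨C, max p₀ p₁, fun p hp => ?_, fun p hp => h1 p (hp.imp_right fun h =>
    (le_max_left _ _).trans h)⟩
  rw [maxRate_lt_iff hx0]
  refine ⟨n, hn, fun k A _ _ _ _ _ _ _ hd => ?_⟩
  have h3 := h2 p (Or.inr ((le_max_right _ _).trans hp)) k A hd
  rwa [mdeg_eq_add, hd] at h3

/-- **Q1 and the maximal growth rate.** -/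
theorem maxRate_qOne (k : Type) [Field k] [IsAlgClosed k] (p : ℕ) [CharP k p] {d : ℕ}
    (hd : 1 ≤ d) : QOneLocal k d ↔ maxRate d p = d := by
  have h1 := isLUB_maxRate k p hd
  rw [qOneLocal_iff]
  constructor
  · intro h
    refine le_antisymm (h1.2 fun y hy => h y hy) ?_
    obtain ⟨y, hy⟩ := growthRates_nonempty k hd
    have h2 := h1.1 hy
    obtain ⟨A, _, _, hA1, hA2, hA3, rfl⟩ := hy
    have h3 := finrank_le_rate (k := k) A
    rw [hA3] at h3
    linarith
  · intro h y hy
    rw [← h]
    exact h1.1 hy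

theorem maxRate_gap (d p : ℕ) : ∃ ε : ℝ, 0 < ε ∧ (maxRate d p < d + ε → maxRate d p ≤ d) := by
  obtain ⟨ε, hε, h⟩ := uniform_gap p d
  refine ⟨ε, hε, fun h1 => maxRate_le (Nat.cast_nonneg _) ?_⟩
  rintro y ⟨k, _, _, _, hy⟩
  exact h k y hy (lt_of_le_of_lt (le_csSup (bddAbove_allRates d p)
    (growthRates_subset_allRates k d p hy)) h1)

end Pool.Agent.Run7.h162.CH
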