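import Pool.Agent.Run7.h162.CH.Sys

/-!
# Growth rates of fibres
-/

set_option autoImplicit false
set_option linter.unusedSectionVars false

namespace Pool.Agent.Run7.h162.CH

open scoped TensorProduct PowerSeries Topology
open Pool.Agent.H826R3.SM Pool.Agent.TH671.DU Pool.Agent.N86.SQ
open MvPolynomial

/-- the generators of the iterated power -/
noncomputable abbrev gen2 (K : Type) [Field K] {B σ : Type} [CommRing B] [Algebra K B] (b : σ → B) (N n : ℕ) :
    Fin n × (Fin N × σ) → Pow K (Pow K B N) n :=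
  fun v => sg K (Pow K B N) v.1 (sg K B v.2.1 (b v.2.2))

set_option synthInstance.maxHeartbeats 400000 in
set_option maxHeartbeats 4000000 in
theorem exists_lines {K B σ : Type} [Field K] [IsAlgClosed K] [CommRing B] [Algebra K B]
    [Module.Finite K B] [Nontrivial B] [Finite σ] (b : σ → B) {x : ℝ} (hx : rate K B < x) (e : ℕ) :
    ∃ N n m W : ℕ, 1 ≤ N ∧ 1 ≤ n ∧ m = ((e + 1) * N + 1) * n ∧
      LinesUpTo K (gen2 K b N n) m W ∧ ((W * (m + 2) : ℕ) : ℝ) < x ^ (N * n) := by
  have hr := one_le_rate (k := K) B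
  have hiK : Infinite K := IsAlgClosed.instInfinite
  rw [rate_eq B] at hx
  obtain ⟨N, hN⟩ := exists_lt_of_ciInf_lt hx
  obtain ⟨D', hD'⟩ := exists_fam (k := K) (Pow K B (N + 1))
  have hD := mdeg_spec hD'
  set D := mdeg K (Pow K B (N + 1)) with hDdef
  have hDx : (D : ℝ) < x ^ (N + 1) := by
    have h1 : ((D : ℝ) ^ (1 / ((N : ℝ) + 1))) ^ (N + 1) < x ^ (N + 1) :=
      pow_lt_pow_left₀ hN (by positivity) (by omega)
    refine lt_of_eq_of_lt ?_ h1
    rw [← Real.rpow_natCast, ← Real.rpow_mul (Nat.cast_nonneg _)]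
    push_cast
    rw [one_div, inv_mul_cancel₀ (by positivity), Real.rpow_one]
  obtain ⟨O, _, _, _, _, _, T, _, h, q, hT, hJ⟩ := joint_of_fam hD
    (aeval fun v : Fin (N + 1) × σ => sg K B v.1 (b v.2)) fun j =>
      (Module.finBasis K (Pow K B (N + 1))).coord j
  have hJ' := hJ.jointA
  set e' : ℕ := (e + 1) * (N + 1) with he'
  set r := Module.finrank K⟦X⟧ O with hrO
  have hx0 : 0 ≤ x := by
    rw [← rate_eq B] at hx
    linarith
  obtain ⟨n, hn⟩ : ∃ n : ℕ, (D : ℝ) ^ (n + 1) *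
      (((((e' + 1) * (n + 1)) * ((n + 1) * h) + 1) * ((e' + 1) * (n + 1) + 1) ^ r *
        ((e' + 1) * (n + 1) + 2) : ℕ) : ℝ) < (x ^ (N + 1)) ^ (n + 1) := by
    by_contra hcon
    push Not at hcon
    have h2 := limit_lemma (x ^ (N + 1)) (D : ℝ) (by positivity) (Nat.cast_nonneg _) (e' + 1) h r hcon
    linarith
  have hL := linesUpTo_of_joint hJ' (n + 1) ((e' + 1) * (n + 1))
  refine ⟨N + 1, n + 1, (e' + 1) * (n + 1), _, by omega, by omega, rfl, hL, ?_⟩
  rw [pow_mul]
  refine lt_of_le_of_lt ?_ hn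
  have h5 : Fintype.card T ^ (n + 1) * (((e' + 1) * (n + 1) * ((n + 1) * h) + 1) *
      ((e' + 1) * (n + 1) + 1) ^ r) * ((e' + 1) * (n + 1) + 2) ≤
      D ^ (n + 1) * (((((e' + 1) * (n + 1)) * ((n + 1) * h) + 1) * ((e' + 1) * (n + 1) + 1) ^ r *
        ((e' + 1) * (n + 1) + 2))) := by
    calc _ ≤ D ^ (n + 1) * (((e' + 1) * (n + 1) * ((n + 1) * h) + 1) *
      ((e' + 1) * (n + 1) + 1) ^ r) * ((e' + 1) * (n + 1) + 2) := by gcongr
      _ = _ := by ring
  exact_mod_cast h5

theorem rate_lt_of_lines {k A σ : Type} [Field k] [IsAlgClosed k] [CommRing A] [Algebra k A]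
    [Module.Finite k A] [Nontrivial A] [Finite σ] {a : σ → A}
    (hgen : Algebra.adjoin k (Set.range a) = ⊤) {e : ℕ}
    (hnil : Ideal.span (Set.range a) ^ (e + 1) = ⊥) {N n m W : ℕ} (hm : m = ((e + 1) * N + 1) * n)
    (hL : LinesUpTo k (gen2 k a N n) m W) {x : ℝ} (hx : 0 ≤ x)
    (hW : ((W * (m + 2) : ℕ) : ℝ) < x ^ (N * n)) : rate k A < x := by
  subst hm
  have hgen' := adjoin_pow hgen N
  have hnil' := nil_pow (k := k) a e hnil N
  have hnil2 := nil_pow (k := k) _ _ hnil' n
  have h1 := inLines_of_linesUpTo (adjoin_pow hgen' n) hnil2 hL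
  have h2 := fam_pow_of_lines hgen' hnil' h1
  have h3 := TH671.DU.mdeg_le h2
  have hnt := nontrivial_pow (k := k) A N
  have h4 := rate_pow_le (k := k) (Pow k A N) n
  rw [rate_pow', ← pow_mul] at h4
  have h5 : rate k A ^ (N * n) < x ^ (N * n) := by
    refine lt_of_le_of_lt (h4.trans ?_) hW
    exact_mod_cast h3
  exact lt_of_pow_lt_pow_left₀ _ hx h5

/-- **Descent.** -/
theorem rate_le_of_descend {k A K B σ R J : Type} [Field k] [IsAlgClosed k] [CommRing A]
    [Algebra k A] [Module.Finite k A] [Nontrivial A] [Field K] [IsAlgClosed K] [CommRing B]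
    [Algebra K B] [Module.Finite K B] [Nontrivial B] [Fintype σ] [Finite J] [CommRing R]
    {a : σ → A} (hgen : Algebra.adjoin k (Set.range a) = ⊤) {e : ℕ}
    (hnil : Ideal.span (Set.range a) ^ (e + 1) = ⊥) {b : σ → B} {φ : R →+* k} {ψ : R →+* K}
    {κ : J → (σ →₀ ℕ) → R} (ha : Coord φ a κ) (hb : Coord ψ b κ)
    (hS : ∀ (N n m W : ℕ), Sol ψ (kpow (kpow κ N) n) m W → Sol φ (kpow (kpow κ N) n) m W) :
    rate k A ≤ rate K B := by
  have hr := one_le_rate (k := K) B
  refine le_of_forall_gt_imp_ge_of_dense fun x hx => ?_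
  obtain ⟨N, n, m, W, -, -, hm, hL, hW⟩ := exists_lines b hx e
  have h1 := sol_of_lines ((hb.pow N).pow n) hL
  have h2 := lines_of_sol ((ha.pow N).pow n) (hS N n m W h1)
  exact (rate_lt_of_lines hgen hnil hm h2 (by linarith) hW).le

/-- coordinates of a base change -/
theorem coord_baseChange {R 𝒜 F σ J : Type} [CommRing R] [CommRing 𝒜] [Algebra R 𝒜] [Field F]
    [Algebra R F] (c : Module.Basis J R 𝒜) (x : σ → 𝒜) :
    Coord (algebraMap R F) (fun v => (1 : F) ⊗ₜ[R] x v)
      (fun j s => c.repr (aeval x (monomial s (1 : R))) j) := by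
  refine ⟨Module.Basis.baseChange F c, fun j s => ?_⟩
  have h1 : aeval (fun v => (1 : F) ⊗ₜ[R] x v) (monomial s (1 : F)) =
      (1 : F) ⊗ₜ[R] aeval x (monomial s (1 : R)) := by
    rw [aeval_monomial, aeval_monomial, map_one, one_mul, map_one, one_mul]
    have h2 : ∀ y : 𝒜, (1 : F) ⊗ₜ[R] y = Algebra.TensorProduct.includeRight (R := R) (A := F) y :=
      fun y => rfl
    simp only [h2]
    unfold Finsupp.prod
    rw [map_prod]
    simp only [map_pow]
  rw [h1, Module.Basis.baseChange_repr_tmul]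
  rw [Algebra.smul_def, mul_one]

/-- **The growth rate of a local scheme after an extension of the ground field.** -/
theorem rate_baseChange (k K A : Type) [Field k] [IsAlgClosed k] [Field K] [IsAlgClosed K]
    [Algebra k K] [CommRing A] [Algebra k A] [Module.Finite k A] [IsLocalRing A] :
    rate K (K ⊗[k] A) = rate k A := by
  have hnt := nontrivial_baseChange k K A
  refine le_antisymm (rate_baseChange_le k K A) ?_
  obtain ⟨-, l, a, e, hgen, hnil⟩ := local_gens (k := k) A
  let c := Module.finBasis k A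
  have hb := coord_baseChange (F := K) c a
  have ha : Coord (RingHom.id k) a (fun j s => c.repr (aeval a (monomial s (1 : k))) j) :=
    ⟨c, fun j s => rfl⟩
  exact rate_le_of_descend hgen hnil ha hb fun N n m W h => h.descend

end Pool.Agent.Run7.h162.CH
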