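import Pool.Agent.Run7.h162.CH.Gene

/-!
# Spreading out: growth rates over an extension field and over the field
-/

set_option autoImplicit false
set_option linter.unusedSectionVars false

namespace Pool.Agent.Run7.h162.CH

open scoped TensorProduct PowerSeries Topology
open Pool.Agent.H826R3.SM Pool.Agent.TH671.DU Pool.Agent.N86.SQ
open MvPolynomial

/-- the points of the closure of a point over the smaller field: polynomials vanishing at all of
them vanish at the point -/
theorem vanish_of_points {k K ι : Type} [Field k] [IsAlgClosed k] [Field K] [Algebra k K]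
    [Finite ι] (p : ι → K) (G : MvPolynomial ι k)
    (h : ∀ y : ι → k, (∀ f : MvPolynomial ι k, aeval p f = 0 → eval y f = 0) → eval y G = 0) :
    aeval p G = 0 := by
  let I : Ideal (MvPolynomial ι k) := RingHom.ker (aeval p : MvPolynomial ι k →ₐ[k] K)
  have hI : I.IsPrime := RingHom.ker_isPrime _
  have h5 : vanishingIdeal k (zeroLocus k I) = I := by
    rw [vanishingIdeal_zeroLocus_eq_radical, hI.radical]
  have h6 : G ∈ vanishingIdeal k (zeroLocus k I) := by
    rw [mem_vanishingIdeal_iff]
    intro y hy
    rw [aeval_eq_eval]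
    refine h y fun f hf => ?_
    have := hy f hf
    rwa [aeval_eq_eval] at this
  rw [h5] at h6
  exact h6

theorem par_eq_parR {k E : Type} [Field k] [CommRing E] [Algebra k E] {d : ℕ}
    (c : Module.Basis (Fin d) k E) : par c = parR c := rfl

/-- **Spreading out.** -/
theorem spread (k : Type) {K B : Type} [Field k] [IsAlgClosed k] [Field K] [IsAlgClosed K]
    [Algebra k K] [CommRing B] [Algebra K B] [Module.Finite K B] [IsLocalRing B] :
    ∃ (Y : Type) (A : Y → Type) (_ : ∀ y, CommRing (A y)) (_ : ∀ y, Algebra k (A y)),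
      (∀ y, Module.Finite k (A y)) ∧ (∀ y, IsLocalRing (A y)) ∧
      (∀ y, Module.finrank k (A y) = Module.finrank K B) ∧
      (∀ y, rate k (A y) ≤ rate K B) ∧ ∀ x : ℝ, (∀ y, rate k (A y) ≤ x) → rate K B ≤ x := by
  classical
  obtain ⟨d, c₀, hd, hc₀⟩ := exists_adapted (F := K) (A := B)
  let ev : MvPolynomial (PIdx (d + 1)) k →ₐ[k] K := aeval (par c₀)
  let R : Subalgebra k K := ev.range
  obtain ⟨𝒜, _, _, c, Ψ, hΨ, hB⟩ := exists_form' (R := R) (K := K) Subtype.val_injective c₀
    (fun v => ⟨⟨par c₀ v, X v, aeval_X _ _⟩, rfl⟩)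
  have hc := hB.adapted_of_injective hΨ hc₀
  let Z := {y : PIdx (d + 1) → k //
    ∀ f : MvPolynomial (PIdx (d + 1)) k, aeval (par c₀) f = 0 → eval y f = 0}
  let res : MvPolynomial (PIdx (d + 1)) k →+* R := ev.rangeRestrict.toRingHom
  have hres : Function.Surjective res := ev.rangeRestrict_surjective
  have hresv : ∀ f, ((res f : R) : K) = aeval (par c₀) f := fun f => rfl
  have hresX : ∀ v, res (X v) = parR c v := by
    intro v
    apply Subtype.ext
    rw [hresv, aeval_X]
    exact hB.parR v
  -- the fibres
  have hfib : ∀ y : Z, ∃ (A : Type) (_ : CommRing A) (_ : Algebra k A)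
      (c' : Module.Basis (Fin (d + 1)) k A) (χ : R →+* k) (Φ : 𝒜 →+* A),
      Over χ c c' Φ ∧ ∀ f, χ (res f) = eval y.1 f := by
    intro y
    have hker : RingHom.ker res ≤ RingHom.ker (eval y.1) := by
      intro f hf
      rw [RingHom.mem_ker] at hf ⊢
      exact y.2 f (congrArg Subtype.val hf)
    let χ : R →+* k := RingHom.liftOfSurjective res hres ⟨eval y.1, hker⟩
    have hχ : ∀ f, χ (res f) = eval y.1 f := fun f =>
      RingHom.liftOfRightInverse_comp_apply res _ _ ⟨eval y.1, hker⟩ f
    obtain ⟨A, cA, aA, c', Φ, h1⟩ := exists_fibre' χ c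
    exact ⟨A, cA, aA, c', χ, Φ, h1, hχ⟩
  choose A cA aA cc χ Φ hO hχ using hfib
  have hpar : ∀ y v, par (cc y) v = y.1 v := by
    intro y v
    rw [par_eq_parR, (hO y).parR, ← hresX, hχ, eval_X]
  have hcc : ∀ y, Adapted (cc y) 0 := fun y => (hO y).adapted hc
  have hloc : ∀ y, IsLocalRing (A y) := fun y => (hcc y).isLocalRing
  have hfin : ∀ y, Module.Finite k (A y) := fun y => Module.Finite.of_basis (cc y)
  have hdim : ∀ y, Module.finrank k (A y) = Module.finrank K B := fun y => by
    rw [Module.finrank_eq_card_basis (cc y), Fintype.card_fin, hd]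
  refine ⟨Z, A, cA, aA, hfin, hloc, hdim, fun y₀ => ?_, fun x hx => ?_⟩
  · refine le_of_forall_gt_imp_ge_of_dense fun x hx => ?_
    obtain ⟨N, n, m, W, hS, hrate⟩ := family_rate hc hB hx
    obtain ⟨f, hf0, hf⟩ := hS.generic (algebraMap R K) Subtype.val_injective
    obtain ⟨F, rfl⟩ := hres f
    refine closure_rate cc y₀ (ZI := {y : Z // χ y (res F) ≠ 0}) (fun y => y.1) (fun Q hQ => ?_)
      fun y => (hrate k (A y.1) (χ y.1) (cc y.1) (Φ y.1) (hO y.1) (hf k (χ y.1) y.2)).le
    have h1 : aeval (par c₀) (F * Q) = 0 := by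
      refine vanish_of_points (par c₀) (F * Q) fun y hy => ?_
      by_cases h2 : eval y F = 0
      · rw [map_mul, h2, zero_mul]
      · have h3 := hQ ⟨⟨y, hy⟩, by rw [hχ]; exact h2⟩
        have h4 : par (cc ⟨y, hy⟩) = y := funext fun v => hpar ⟨y, hy⟩ v
        beta_reduce at h3
        rw [h4] at h3
        rw [map_mul, h3, mul_zero]
    rw [map_mul] at h1
    have h5 : aeval (par c₀) F ≠ (0 : K) := by
      intro h6
      apply hf0
      apply Subtype.ext
      rw [hresv, h6]
      rfl
    have h7 : aeval (par c₀) Q = (0 : K) := (mul_eq_zero.1 h1).resolve_left h5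
    have h8 : par (cc y₀) = y₀.1 := funext fun v => hpar y₀ v
    rw [h8]
    exact y₀.2 Q h7
  · -- the growth rate of the generic fibre
    have hY : ∀ y : Option Z, ∃ (E : Type) (_ : CommRing E) (_ : Algebra K E)
        (c' : Module.Basis (Fin (d + 1)) K E),
        (y = none → par c' = par c₀ ∧ IsLocalRing E ∧ rate K E = rate K B) ∧
        (∀ z : Z, y = some z → par c' = (fun i => algebraMap k K (z.1 i)) ∧ rate K E ≤ x) := by
      rintro (_ | z)
      · exact ⟨B, inferInstance, inferInstance, c₀, fun _ => ⟨rfl, inferInstance, rfl⟩,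
          fun z hz => absurd hz.symm (Option.some_ne_none z)⟩
      · have := hloc z
        refine ⟨K ⊗[k] A z, inferInstance, inferInstance, Module.Basis.baseChange K (cc z),
          ⟨fun h => absurd h (Option.some_ne_none z), fun z' hz' => ?_⟩⟩
        obtain rfl : z = z' := Option.some.inj hz'
        refine ⟨?_, (rate_baseChange_le k K (A z)).trans (hx z)⟩
        funext v
        rw [← hpar z v]
        rcases v with ⟨i, j, l⟩ | l
        · change (Module.Basis.baseChange K (cc z)).repr
            (Module.Basis.baseChange K (cc z) i * Module.Basis.baseChange K (cc z) j) l = _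
          rw [Module.Basis.baseChange_apply, Module.Basis.baseChange_apply,
            Algebra.TensorProduct.tmul_mul_tmul, mul_one, Module.Basis.baseChange_repr_tmul,
            Algebra.smul_def, mul_one]
          rfl
        · change (Module.Basis.baseChange K (cc z)).repr ((1 : K) ⊗ₜ[k] (1 : A z)) l = _
          rw [Module.Basis.baseChange_repr_tmul, Algebra.smul_def, mul_one]
          rfl
    choose E cE aE ce h1 h2 using hY
    obtain ⟨hn1, hn2, hn3⟩ := h1 none rfl
    have hcl : ∀ Q : MvPolynomial (PIdx (d + 1)) K, (∀ i : Z, eval (par (ce (some i))) Q = 0) →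
        eval (par (ce none)) Q = 0 := by
      intro Q hQ
      rw [hn1]
      refine density (k := k) (par c₀) Q fun y hy => ?_
      have h4 := hQ ⟨y, hy⟩
      rwa [(h2 (some ⟨y, hy⟩) ⟨y, hy⟩ rfl).1] at h4
    have h3 := closure_rate ce none (ZI := Z) some hcl (x := x) fun i => (h2 (some i) i rfl).2
    rwa [hn3] at h3

/-- the growth rates over an extension field are limits of growth rates over the field -/
theorem growthRates_closure (k K : Type) [Field k] [IsAlgClosed k] [Field K] [IsAlgClosed K]
    [Algebra k K] (d : ℕ) :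
    growthRates k d ⊆ growthRates K d ∧ growthRates K d ⊆ closure (growthRates k d) := by
  constructor
  · rintro x ⟨A, _, _, hA1, hA2, hA3, rfl⟩
    exact ⟨K ⊗[k] A, inferInstance, inferInstance, inferInstance,
      isLocalRing_baseChange k K A, by rw [Module.finrank_baseChange, hA3],
      rate_baseChange k K A⟩
  · rintro x ⟨B, _, _, hB1, hB2, hB3, rfl⟩
    obtain ⟨Y, A, _, _, hfin, hloc, hdim, hle, hsup⟩ := spread k (K := K) (B := B)
    rw [Metric.mem_closure_iff]
    intro ε hε
    by_contra hcon
    push Not at hcon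
    have h1 := hsup (rate K B - ε) fun y => by
      have h2 := hcon (rate k (A y)) ⟨A y, inferInstance, inferInstance, hfin y, hloc y,
        by rw [hdim y, hB3], rfl⟩
      have h3 := hle y
      rw [Real.dist_eq, abs_of_nonneg (by linarith)] at h2
      linarith
    linarith

end Pool.Agent.Run7.h162.CH
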