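import Pool.Agent.N823.LineGap

/-!
# Lines through a point as solutions of systems of polynomial equations
-/

set_option autoImplicit false
set_option linter.unusedSectionVars false

namespace Pool.Agent.Run7.h162.CH

open scoped TensorProduct PowerSeries Topology
open Pool.Agent.H826R3.SM Pool.Agent.TH671.DU Pool.Agent.N86.SQ
open MvPolynomial

section coord

variable {F A σ J : Type} [Field F] [CommRing A] [Algebra F A]

theorem aeval_sg_monomial {n : ℕ} (a : σ → A) (s : Fin n × σ →₀ ℕ) :
    aeval (fun v : Fin n × σ => sg F A v.1 (a v.2)) (monomial s (1 : F)) =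
      PiTensorProduct.tprod F fun l => aeval a (monomial (part s l) (1 : F)) := by
  conv_lhs => rw [← sum_mapDomain_part s, ← prod_rename_monomial, map_prod]
  rw [tprod_eq_prod_single]
  refine Finset.prod_congr rfl fun l _ => ?_
  rw [aeval_rename]
  change aeval (fun v => sg F A l (a v)) _ = sg F A l _
  rw [← MvPolynomial.comp_aeval_apply]

/-- The coordinates of the monomials in `a` are the images of the elements `κ j s` of `R`. -/
def Coord {R F : Type} [CommRing R] [Field F] (φ : R →+* F) {A σ J : Type} [CommRing A]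
    [Algebra F A] (a : σ → A) (κ : J → (σ →₀ ℕ) → R) : Prop :=
  ∃ b : Module.Basis J F A, ∀ j s, b.repr (aeval a (monomial s (1 : F))) j = φ (κ j s)

/-- the coordinates of the powers -/
noncomputable def kpow {R σ J : Type} [CommRing R] (κ : J → (σ →₀ ℕ) → R) (n : ℕ) (q : Fin n → J)
    (s : Fin n × σ →₀ ℕ) : R := ∏ l, κ (q l) (part s l)

theorem Coord.pow {R : Type} [CommRing R] [Finite J] {φ : R →+* F} {a : σ → A}
    {κ : J → (σ →₀ ℕ) → R} (h : Coord φ a κ) (n : ℕ) :
    Coord φ (fun v : Fin n × σ => sg F A v.1 (a v.2)) (kpow κ n) := by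
  classical
  obtain ⟨b, hb⟩ := h
  refine ⟨Basis.piTensorProduct (fun _ : Fin n => b), fun q s => ?_⟩
  rw [aeval_sg_monomial, Basis.piTensorProduct_repr_tprod_apply]
  unfold kpow
  rw [map_prod]
  exact Finset.prod_congr rfl fun l _ => hb _ _

/-- The system of equations for the lines. -/
def Sol {R F : Type} [CommRing R] [Field F] (φ : R →+* F) {σ J : Type} [Fintype σ]
    (κ : J → (σ →₀ ℕ) → R) (m W : ℕ) : Prop :=
  ∃ (p : Fin W → σ → F) (c : J → Fin (m + 1) → Fin W → F), ∀ j (s : σ →₀ ℕ)
    (hs : s.degree ≤ m), φ (κ j s) = ∑ w, c j ⟨s.degree, by omega⟩ w * ∏ v, p w v ^ s v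

theorem eval_monomial' [Fintype σ] (p : σ → F) (s : σ →₀ ℕ) :
    eval p (monomial s (1 : F)) = ∏ v, p v ^ s v := by
  rw [eval_monomial, one_mul, Finsupp.prod_fintype _ _ fun i => pow_zero _]

theorem sol_of_lines {R : Type} [CommRing R] [Fintype σ] {φ : R →+* F} {a : σ → A}
    {κ : J → (σ →₀ ℕ) → R} (h : Coord φ a κ) {m W : ℕ} (hL : LinesUpTo F a m W) :
    Sol φ κ m W := by
  obtain ⟨b, hb⟩ := h
  obtain ⟨p, hp⟩ := hL
  choose c hc using fun (j : J) (e : Fin (m + 1)) =>
    exists_coeffs (e := e) (by omega) hp (b.coord j)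
  refine ⟨p, c, fun j s hs => ?_⟩
  rw [← hb, ← Module.Basis.coord_apply, hc j ⟨s.degree, by omega⟩ (monomial s 1)
    (isHomogeneous_monomial _ rfl)]
  exact Finset.sum_congr rfl fun w _ => by rw [eval_monomial']

theorem lines_of_sol {R : Type} [CommRing R] [Fintype σ] {φ : R →+* F} {a : σ → A}
    {κ : J → (σ →₀ ℕ) → R} (h : Coord φ a κ) {m W : ℕ} (hS : Sol φ κ m W) :
    LinesUpTo F a m W := by
  obtain ⟨b, hb⟩ := h
  obtain ⟨p, c, hpc⟩ := hS
  refine ⟨p, fun e he M hM h0 => ?_⟩
  apply b.repr.injective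
  rw [map_zero]
  ext j
  rw [Finsupp.zero_apply]
  have h1 : ∀ s ∈ M.support, s.degree = e := by
    intro s hs
    rw [Finsupp.degree_eq_weight_one]
    exact hM (mem_support_iff.mp hs)
  have h2 : ∀ s ∈ M.support, b.repr (aeval a (monomial s (coeff s M))) j =
      ∑ w, c j ⟨e, by omega⟩ w * (coeff s M * ∏ v, p w v ^ s v) := by
    intro s hs
    have h3 : (monomial s (coeff s M)) = coeff s M • (monomial s (1 : F)) := by
      rw [smul_monomial, smul_eq_mul, mul_one]
    have h4 := h1 s hs
    have h5 := hpc j s (by omega)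
    rw [h3, map_smul, map_smul, Finsupp.smul_apply, hb, h5, smul_eq_mul, Finset.mul_sum]
    refine Finset.sum_congr rfl fun w _ => ?_
    have h6 : (⟨s.degree, by omega⟩ : Fin (m + 1)) = ⟨e, by omega⟩ := Fin.ext h4
    rw [h6]
    ring
  rw [M.as_sum, map_sum, map_sum, Finsupp.finsetSum_apply, Finset.sum_congr rfl h2,
    Finset.sum_comm]
  refine Finset.sum_eq_zero fun w _ => ?_
  rw [← Finset.mul_sum]
  have h7 : eval (p w) M = ∑ s ∈ M.support, coeff s M * ∏ v, p w v ^ s v := by
    conv_lhs => rw [M.as_sum]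
    rw [map_sum]
    refine Finset.sum_congr rfl fun s _ => ?_
    rw [eval_monomial, Finsupp.prod_fintype _ _ fun i => pow_zero _]
  rw [← h7, h0 w, mul_zero]

end coord

/-! ### Extension fields -/

/-- Systems with a solution in an extension field have a solution. -/
theorem exists_solution {k K U : Type} [Field k] [IsAlgClosed k] [Field K] [Algebra k K]
    [Finite U] (S : Set (MvPolynomial U k)) (x : U → K) (hx : ∀ f ∈ S, aeval x f = 0) :
    ∃ y : U → k, ∀ f ∈ S, eval y f = 0 := by
  by_contra hcon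
  push Not at hcon
  have h1 : zeroLocus k (Ideal.span S) = ∅ := by
    rw [Set.eq_empty_iff_forall_notMem]
    intro y hy
    obtain ⟨f, hf, hne⟩ := hcon y
    exact hne (by
      have := hy f (Ideal.subset_span hf)
      rwa [aeval_eq_eval] at this)
  have h2 := vanishingIdeal_zeroLocus_eq_radical (K := k) (Ideal.span S)
  have h3 : (1 : MvPolynomial U k) ∈ (Ideal.span S).radical := by
    rw [← h2, h1]
    intro x hx
    exact absurd hx (Set.notMem_empty x)
  obtain ⟨n, hn⟩ := h3
  rw [one_pow] at hn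
  have h4 : ∀ f ∈ Ideal.span S, aeval x f = 0 := by
    intro f hf
    have h5 : Ideal.span S ≤ RingHom.ker (aeval x : MvPolynomial U k →ₐ[k] K) := by
      rw [Ideal.span_le]
      intro g hg
      exact hx g hg
    exact h5 hf
  have h6 := h4 1 hn
  rw [map_one] at h6
  exact one_ne_zero h6

theorem Sol.descend {k K σ J : Type} [Field k] [IsAlgClosed k] [Field K] [Algebra k K]
    [Fintype σ] [Finite J] {κ : J → (σ →₀ ℕ) → k} {m W : ℕ}
    (h : Sol (algebraMap k K) κ m W) : Sol (RingHom.id k) κ m W := by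
  classical
  obtain ⟨p, c, hpc⟩ := h
  let U := (Fin W × σ) ⊕ (J × Fin (m + 1) × Fin W)
  let E : J → (s : σ →₀ ℕ) → s.degree ≤ m → MvPolynomial U k := fun j s hs =>
    C (κ j s) - ∑ w, X (Sum.inr (j, ⟨s.degree, by omega⟩, w)) * ∏ v, X (Sum.inl (w, v)) ^ s v
  let x : U → K := Sum.elim (fun z => p z.1 z.2) fun z => c z.1 z.2.1 z.2.2
  obtain ⟨y, hy⟩ := exists_solution {f | ∃ j s hs, f = E j s hs} x (by
    rintro _ ⟨j, s, hs, rfl⟩
    have h1 := hpc j s hs
    simp only [E, map_sub, map_sum, map_mul, map_prod, map_pow, aeval_X]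
    rw [show aeval x (C (κ j s) : MvPolynomial U k) = algebraMap k K (κ j s) from
      aeval_C x (κ j s), h1]
    exact sub_self _)
  refine ⟨fun w v => y (Sum.inl (w, v)), fun j e w => y (Sum.inr (j, e, w)), fun j s hs => ?_⟩
  have h2 := hy _ ⟨j, s, hs, rfl⟩
  simp only [E, map_sub, map_sum, map_mul, map_prod, map_pow, eval_X, eval_C] at h2
  exact sub_eq_zero.1 h2

/-! ### Products of fields -/

theorem Sol.exists_of_quotient {I : Type} {F : I → Type} [∀ i, Field (F i)] {K : Type} [Field K]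
    (φ : (∀ i, F i) →+* K) (hφ : Function.Surjective φ) {σ J : Type} [Fintype σ] [Finite J]
    {κ : J → (σ →₀ ℕ) → ∀ i, F i} {m W : ℕ} (h : Sol φ κ m W) :
    ∃ i, Sol (Pi.evalRingHom F i) κ m W := by
  classical
  have := Fintype.ofFinite J
  obtain ⟨p, c, hpc⟩ := h
  choose P hP using fun w v => hφ (p w v)
  choose C' hC using fun j e w => hφ (c j e w)
  -- the finite set of the equations
  have hfin : {s : σ →₀ ℕ | s.degree ≤ m}.Finite := by
    have h1 : {s : σ →₀ ℕ | s.degree ≤ m} ⊆
        Set.Iic (Finsupp.equivFunOnFinite.symm fun _ : σ => m) := by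
      intro s hs v
      have h2 : s v ≤ s.degree := Finsupp.le_degree v s
      have h3 : s.degree ≤ m := hs
      exact h2.trans h3
    exact (Set.finite_Iic _).subset h1
  have := hfin.fintype
  let Q := J × {s : σ →₀ ℕ // s.degree ≤ m}
  have hQ : Fintype Q := @instFintypeProd _ _ _ hfin.fintype
  let g : Q → ∀ i, F i := fun q => κ q.1 q.2.1 -
    ∑ w, C' q.1 ⟨q.2.1.degree, by have := q.2.2; omega⟩ w * ∏ v, P w v ^ q.2.1 v
  have hg : ∀ q, φ (g q) = 0 := by
    intro q
    simp only [g, map_sub, map_sum, map_mul, map_prod, map_pow, hP, hC]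
    rw [hpc q.1 q.2.1 q.2.2]
    exact sub_self _
  by_contra hcon
  have h1 : ∀ i, ∃ q, g q i ≠ 0 := by
    intro i
    by_contra hi
    push Not at hi
    apply hcon
    refine ⟨i, fun w v => P w v i, fun j e w => C' j e w i, fun j s hs => ?_⟩
    have h2 := hi (j, ⟨s, hs⟩)
    simp only [g, Pi.sub_apply, Finset.sum_apply, Pi.mul_apply, Finset.prod_apply,
      Pi.pow_apply] at h2
    exact sub_eq_zero.1 h2
  choose q hq using h1
  let H : Q → ∀ i, F i := fun q' i => if q' = q i then (g q' i)⁻¹ else 0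
  have h3 : ∑ q', H q' * g q' = 1 := by
    funext i
    rw [Finset.sum_apply, Finset.sum_eq_single (q i)]
    · simp only [H, Pi.mul_apply, if_true, Pi.one_apply]
      exact inv_mul_cancel₀ (hq i)
    · intro q' _ hne
      simp only [H, Pi.mul_apply, if_neg hne, zero_mul]
    · intro hno
      exact absurd (Finset.mem_univ _) hno
  have h4 := congrArg φ h3
  rw [map_sum, map_one] at h4
  have h5 : ∑ q', φ (H q' * g q') = 0 := Finset.sum_eq_zero fun q' _ => by
    rw [map_mul, hg, mul_zero]
  rw [h5] at h4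
  exact zero_ne_one h4

end Pool.Agent.Run7.h162.CH
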