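import Pool.Agent.Run7.h162.CH.Vg

/-!
# Growth rates over uncountable fields
-/

set_option autoImplicit false
set_option linter.unusedSectionVars false

namespace Pool.Agent.Run7.h162.CH

open scoped TensorProduct PowerSeries Topology
open Pool.Agent.H826R3.SM Pool.Agent.TH671.DU Pool.Agent.N86.SQ
open MvPolynomial

/-- algebras at the points of the Zariski closure of a sequence of algebras -/
theorem exists_closure_family {K : Type} [Field K] [IsAlgClosed K] {e : ℕ} {B : ℕ → Type}
    [∀ i, CommRing (B i)] [∀ i, Algebra K (B i)]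
    (c : ∀ i, Module.Basis (Fin (e + 1)) K (B i)) (hc : ∀ i, Adapted (c i) 0)
    (y : PIdx (e + 1) → K)
    (hy : ∀ f : MvPolynomial (PIdx (e + 1)) K, (∀ i, eval (par (c i)) f = 0) → eval y f = 0) :
    ∃ (A : Type) (_ : CommRing A) (_ : Algebra K A) (c' : Module.Basis (Fin (e + 1)) K A),
      Adapted c' 0 ∧ par c' = y := by
  classical
  have hn : ∀ i (j : Fin (e + 1)), j ≠ 0 → c i j ^ (e + 1) = 0 := by
    intro i j hj
    have := (hc i).isLocalRing
    have hfin : Module.Finite K (B i) := Module.Finite.of_basis (c i)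
    have h1 := pow_finrank_eq_zero (F := K) ((hc i).2 j hj)
    rwa [Module.finrank_eq_card_basis (c i), Fintype.card_fin] at h1
  obtain ⟨𝒜₀, _, _, C, Φ₀, hC, hO⟩ := exists_prod_family (F := fun _ : ℕ => K) c hc hn
  let ev : MvPolynomial (PIdx (e + 1)) K →ₐ[K] (ℕ → K) := aeval (parR C)
  have hev : ∀ f i, ev f i = eval (par (c i)) f := by
    intro f i
    have h1 : (Pi.evalAlgHom K (fun _ : ℕ => K) i).comp ev = aeval (par (c i)) := by
      apply MvPolynomial.algHom_ext
      intro v
      rw [AlgHom.comp_apply, aeval_X, aeval_X, par_eq_parR, (hO i).parR]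
      rfl
    have h2 := congrArg (fun φ : MvPolynomial (PIdx (e + 1)) K →ₐ[K] K => φ f) h1
    beta_reduce at h2
    rw [aeval_eq_eval] at h2
    exact h2
  let R : Subalgebra K (ℕ → K) := ev.range
  obtain ⟨𝒜, _, _, cR, Ψ, hΨ, hB⟩ := exists_form' (R := R) (K := ℕ → K) Subtype.val_injective C
    (fun v => ⟨⟨parR C v, X v, aeval_X _ _⟩, rfl⟩)
  have hcR := hB.adapted_of_injective hΨ hC
  let res : MvPolynomial (PIdx (e + 1)) K →+* R := ev.rangeRestrict.toRingHom
  have hres : Function.Surjective res := ev.rangeRestrict_surjective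
  have hresv : ∀ f, ((res f : R) : ℕ → K) = ev f := fun f => rfl
  have hresX : ∀ v, res (X v) = parR cR v := by
    intro v
    apply Subtype.ext
    rw [hresv]
    change aeval (parR C) (X v) = _
    rw [aeval_X]
    exact hB.parR v
  have hker : RingHom.ker res ≤ RingHom.ker (eval y) := by
    intro f hf
    rw [RingHom.mem_ker] at hf ⊢
    refine hy f fun i => ?_
    rw [← hev, ← hresv, hf]
    rfl
  let χ : R →+* K := RingHom.liftOfSurjective res hres ⟨eval y, hker⟩
  have hχ : ∀ f, χ (res f) = eval y f := fun f =>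
    RingHom.liftOfRightInverse_comp_apply res _ _ ⟨eval y, hker⟩ f
  obtain ⟨A, cA, aA, c', Φ, h1⟩ := exists_fibre' χ cR
  refine ⟨A, cA, aA, c', h1.adapted hcR, funext fun v => ?_⟩
  rw [par_eq_parR, h1.parR, ← hresX, hχ, eval_X]

/-- **Suprema of growth rates are growth rates over uncountable fields.** -/
theorem exists_sup {K : Type} [Field K] [IsAlgClosed K] [Uncountable K] {e : ℕ} {B : ℕ → Type}
    [∀ i, CommRing (B i)] [∀ i, Algebra K (B i)]
    (c : ∀ i, Module.Basis (Fin (e + 1)) K (B i)) (hc : ∀ i, Adapted (c i) 0) {x : ℝ}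
    (hx : ∀ i, rate K (B i) < x) (hlim : ∀ t < x, ∃ i, t < rate K (B i)) :
    ∃ (A : Type) (_ : CommRing A) (_ : Algebra K A) (c' : Module.Basis (Fin (e + 1)) K A),
      Adapted c' 0 ∧ rate K A = x := by
  classical
  let ι := PIdx (e + 1)
  let PP := MvPolynomial ι K
  let I : Ideal PP := ⨅ i, RingHom.ker (eval (par (c i)))
  have hI : ∀ f : PP, f ∈ I ↔ ∀ i, eval (par (c i)) f = 0 := by
    intro f
    change f ∈ (⨅ i, RingHom.ker (eval (par (c i)))) ↔ _
    rw [Ideal.mem_iInf]
    rfl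
  let Z := {y : ι → K // ∀ f : PP, (∀ i, eval (par (c i)) f = 0) → eval y f = 0}
  have hZ : ∀ y : Z, ∃ (A : Type) (_ : CommRing A) (_ : Algebra K A)
      (c' : Module.Basis (Fin (e + 1)) K A), Adapted c' 0 ∧ par c' = y.1 := fun y =>
    exists_closure_family c hc y.1 y.2
  choose A cA aA cc hcc hpar using hZ
  have hloc : ∀ y, IsLocalRing (A y) := fun y => (hcc y).isLocalRing
  have hlocB : ∀ i, IsLocalRing (B i) := fun i => (hc i).isLocalRing
  have hle : ∀ y, rate K (A y) ≤ x := by
    intro y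
    refine closure_rate' c (cc y) (fun Q hQ => ?_) fun i => (hx i).le
    rw [hpar]
    exact y.2 Q hQ
  -- the points of the sequence
  let pt : ℕ → Z := fun i => ⟨par (c i), fun f hf => hf i⟩
  have hpt : ∀ i, rate K (B i) ≤ rate K (A (pt i)) := fun i =>
    rate_le_of_par (cc (pt i)) (c i) (hpar (pt i))
  by_cases hcase : ∀ P ∈ I.minimalPrimes, ∃ i, ∀ Q : PP,
      (∀ y : Z, rate K (A y) ≤ rate K (B i) → eval y.1 Q = 0) → Q ∈ P
  · exfalso
    choose! j hj using hcase
    have hfin : I.minimalPrimes.Finite := Ideal.finite_minimalPrimes_of_isNoetherianRing PP I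
    have hexP : ∀ l : ℕ, ∃ P ∈ I.minimalPrimes, rate K (B l) ≤ rate K (B (j P)) := by
      intro l
      have hprime : (RingHom.ker (eval (par (c l)) : PP →+* K)).IsPrime := RingHom.ker_isPrime _
      have hIle : I ≤ RingHom.ker (eval (par (c l)) : PP →+* K) := iInf_le _ l
      obtain ⟨P, hP, hPle⟩ := Ideal.exists_minimalPrimes_le hIle
      refine ⟨P, hP, ?_⟩
      refine closure_rate' (ZI := {y : Z // rate K (A y) ≤ rate K (B (j P))})
        (fun y => cc y.1) (c l) (fun Q hQ => ?_) fun y => y.2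
      refine hPle (hj P hP Q fun y hy => ?_)
      have h1 := hQ ⟨y, hy⟩
      beta_reduce at h1
      rwa [hpar] at h1
    -- the maximum
    have hne : (hfin.toFinset).Nonempty := by
      obtain ⟨P, hP, -⟩ := hexP 0
      exact ⟨P, hfin.mem_toFinset.2 hP⟩
    obtain ⟨P₀, hP₀, hmax⟩ := hfin.toFinset.exists_max_image (fun P => rate K (B (j P))) hne
    obtain ⟨l, hl⟩ := hlim _ (hx (j P₀))
    obtain ⟨P, hP, hle2⟩ := hexP l
    have h2 := hmax P (hfin.mem_toFinset.2 hP)
    linarith
  · push Not at hcase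
    obtain ⟨P, hP, hf⟩ := hcase
    choose f hf1 hf2 using hf
    have hPp : P.IsPrime := hP.1.1
    let E := FractionRing (PP ⧸ P)
    let p : ι → E := fun v => algebraMap (PP ⧸ P) E (Ideal.Quotient.mk P (X v))
    have hp : ∀ F : PP, aeval p F = algebraMap (PP ⧸ P) E (Ideal.Quotient.mk P F) := by
      intro F
      have h1 : (aeval p : PP →ₐ[K] E) =
          (IsScalarTower.toAlgHom K (PP ⧸ P) E).comp (Ideal.Quotient.mkₐ K P) := by
        apply MvPolynomial.algHom_ext
        intro v
        rw [aeval_X]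
        rfl
      rw [h1]
      rfl
    have hp0 : ∀ F : PP, aeval p F = 0 ↔ F ∈ P := by
      intro F
      rw [hp, map_eq_zero_iff _ (IsFractionRing.injective (PP ⧸ P) E),
        Ideal.Quotient.eq_zero_iff_mem]
    obtain ⟨y, hy1, hy2⟩ := exists_very_general p f fun i h0 => hf2 i ((hp0 _).1 h0)
    have hyZ : ∀ f : PP, (∀ i, eval (par (c i)) f = 0) → eval y f = 0 := by
      intro F hF
      exact hy1 F ((hp0 F).2 (hP.1.2 ((hI F).2 hF)))
    have hgt : ∀ i, rate K (B i) < rate K (A ⟨y, hyZ⟩) := by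
      intro i
      by_contra hcon
      exact hy2 i (hf1 i ⟨y, hyZ⟩ (not_lt.1 hcon))
    refine ⟨A ⟨y, hyZ⟩, cA _, aA _, cc _, hcc _, le_antisymm (hle _) ?_⟩
    by_contra hcon
    obtain ⟨i, hi⟩ := hlim _ (not_le.1 hcon)
    exact absurd (hgt i) (not_lt.2 hi.le)

/-- **The set of the growth rates over an uncountable field is closed.** -/
theorem isClosed_growthRates (K : Type) [Field K] [IsAlgClosed K] [Uncountable K] (d : ℕ) :
    IsClosed (growthRates K d) := by
  classical
  rw [isClosed_iff_clusterPt]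
  intro x hx
  rw [← mem_closure_iff_clusterPt, Metric.mem_closure_iff] at hx
  by_contra hxm
  -- no growth rates slightly above `x`
  obtain ⟨ε, hε, hgap⟩ : ∃ ε : ℝ, 0 < ε ∧ ∀ y ∈ growthRates K d, y < x + ε → y < x := by
    have hwf : ({y ∈ growthRates K d | x < y}).IsWF :=
      (growthRates_isWF (k := K) d).mono (Set.sep_subset _ _)
    by_cases hne : ({y ∈ growthRates K d | x < y}).Nonempty
    · refine ⟨hwf.min hne - x, ?_, fun y hy hyx => ?_⟩
      · have := (hwf.min_mem hne).2
        linarith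
      · by_contra hcon
        rcases lt_or_eq_of_le (not_lt.1 hcon) with h | h
        · have h1 := hwf.min_le hne (a := y) ⟨hy, h⟩
          linarith
        · exact hxm (h ▸ hy)
    · refine ⟨1, one_pos, fun y hy _ => ?_⟩
      by_contra hcon
      rcases lt_or_eq_of_le (not_lt.1 hcon) with h | h
      · exact hne ⟨y, hy, h⟩
      · exact hxm (h ▸ hy)
  have hseq : ∀ i : ℕ, ∃ (B : Type) (_ : CommRing B) (_ : Algebra K B) (d' : ℕ)
      (c : Module.Basis (Fin (d' + 1)) K B), d = d' + 1 ∧ Adapted c 0 ∧ rate K B < x ∧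
      x - 1 / ((i : ℝ) + 1) < rate K B := by
    intro i
    obtain ⟨y, ⟨B, _, _, hB1, hB2, hB3, hB4⟩, hy⟩ :=
      hx (min ε (1 / ((i : ℝ) + 1))) (lt_min hε (by positivity))
    obtain ⟨d', c, hd', hc⟩ := exists_adapted (F := K) (A := B)
    rw [Real.dist_eq, abs_lt] at hy
    have h1 := min_le_left ε (1 / ((i : ℝ) + 1))
    have h2 := min_le_right ε (1 / ((i : ℝ) + 1))
    have h3 : y < x := hgap y ⟨B, inferInstance, inferInstance, hB1, hB2, hB3, hB4⟩ (by linarith)
    refine ⟨B, inferInstance, inferInstance, d', c, by rw [← hB3, hd'], hc, ?_, ?_⟩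
    · rw [hB4]
      exact h3
    · rw [hB4]
      linarith
  choose B cB aB d' c hd hc hlt hgt using hseq
  obtain ⟨e, rfl⟩ : ∃ e, d = e + 1 := ⟨d' 0, hd 0⟩
  have hde : ∀ i, d' i = e := fun i => by
    have := hd i
    omega
  obtain rfl : d' = fun _ => e := funext hde
  obtain ⟨A, _, _, c', hc', hA⟩ := exists_sup c hc hlt (fun t ht => by
    obtain ⟨n, hn⟩ := exists_nat_one_div_lt (sub_pos.2 ht)
    refine ⟨n, ?_⟩
    have := hgt n
    linarith)
  exact hxm ⟨A, inferInstance, inferInstance, Module.Finite.of_basis c', hc'.isLocalRing, by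
    rw [Module.finrank_eq_card_basis c', Fintype.card_fin], hA⟩

/-! ### The maximal growth rate -/

/-- a bound for the growth rates of the local schemes of given degree -/
theorem bddAbove_growthRates (k : Type) [Field k] [IsAlgClosed k] (d : ℕ) :
    BddAbove (growthRates k d) := by
  classical
  rcases Nat.eq_zero_or_pos d with rfl | hd0
  · refine ⟨0, ?_⟩
    rintro x ⟨A, _, _, hA1, hA2, hA3, hA4⟩
    have : 0 < Module.finrank k A := Module.finrank_pos
    omega
  obtain ⟨e, rfl⟩ : ∃ e, d = e + 1 := ⟨d - 1, by omega⟩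
  refine ⟨rate k (Pow k (Tr k e) (e + 1)), ?_⟩
  rintro x ⟨A, _, _, hA1, hA2, hA3, rfl⟩
  obtain ⟨d', c, hd', hc⟩ := exists_adapted (F := k) (A := A)
  obtain rfl : d' = e := by omega
  have hnt : Nontrivial (Tr k d') := by
    obtain ⟨f, hf⟩ := exists_cf (k := k) d' 0 (Nat.zero_le _)
    refine ⟨⟨0, 1, fun h => ?_⟩⟩
    have h2 := hf 0
    rw [pow_zero, ← h, map_zero, if_pos rfl] at h2
    exact zero_ne_one h2
  have hntP := nontrivial_pow (k := k) (Tr k d') (d' + 1)
  have hnil : ∀ j, nilp c 0 j ^ (d' + 1) = 0 := by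
    intro j
    by_cases hj : j = 0
    · have h1 : nilp c 0 j = 0 := if_pos hj
      rw [h1, zero_pow (Nat.succ_ne_zero _)]
    · have h1 : nilp c 0 j = c j := if_neg hj
      rw [h1]
      have h2 := pow_finrank_eq_zero (F := k) (hc.2 j hj)
      rwa [hA3] at h2
  let g : Fin (d' + 1) → (Tr k d' →ₐ[k] A) := fun j =>
    AdjoinRoot.liftAlgHom _ (Algebra.ofId k A) (nilp c 0 j) (by
      rw [Polynomial.eval₂_pow, Polynomial.eval₂_X, hnil])
  refine rate_le (IsSubquotient.of_surjective (powLift g) ?_)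
  rw [← AlgHom.range_eq_top, eq_top_iff, ← adjoin_nilp hc]
  refine Algebra.adjoin_le ?_
  rintro _ ⟨j, rfl⟩
  refine ⟨sg k (Tr k d') j (AdjoinRoot.root _), ?_⟩
  have h3 := powLift_single g j (AdjoinRoot.root _)
  refine Eq.trans h3 ?_
  change AdjoinRoot.liftAlgHom _ _ _ _ (AdjoinRoot.root _) = _
  rw [AdjoinRoot.liftAlgHom_root]

end Pool.Agent.Run7.h162.CH
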