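import Pool.Agent.Run7.h162.CH.Unc

/-!
# Uniform powers
-/

set_option autoImplicit false
set_option linter.unusedSectionVars false

namespace Pool.Agent.Run7.h162.CH

open scoped TensorProduct PowerSeries Topology
open Pool.Agent.H826R3.SM Pool.Agent.TH671.DU Pool.Agent.N86.SQ
open MvPolynomial

section mdeg

variable {k : Type} [Field k] [IsAlgClosed k]

theorem mdeg_pow_pow_le (A : Type) [CommRing A] [Algebra k A] [Module.Finite k A] (N n : ℕ) :
    mdeg k (Pow k A (n * N)) ≤ mdeg k (Pow k (Pow k A N) n) := by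
  let f : Pow k (Pow k A N) n →ₐ[k] Pow k A (n * N) :=
    powLift fun a => powLift fun b => sg k A (finProdFinEquiv (a, b))
  have hf : Function.Surjective f := by
    rw [← AlgHom.range_eq_top]
    refine pow_eq_top _ fun i x => ?_
    obtain ⟨⟨a, b⟩, rfl⟩ := finProdFinEquiv.surjective i
    refine ⟨sg k (Pow k A N) a (sg k A b x), ?_⟩
    refine Eq.trans (powLift_single _ a _) ?_
    exact powLift_single _ b x
  exact (IsSubquotient.of_surjective f hf).mdeg_le

theorem mdeg_pow_mul_le (A : Type) [CommRing A] [Algebra k A] [Module.Finite k A] [Nontrivial A]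
    (q j : ℕ) : mdeg k (Pow k A (q * (j + 1))) ≤ mdeg k (Pow k A q) ^ (j + 1) := by
  induction j with
  | zero => rw [Nat.zero_add, mul_one, pow_one]
  | succ j ih =>
    have h1 : q * (j + 1 + 1) = q * (j + 1) + q := by ring
    rw [h1, pow_succ]
    exact (mdeg_pow_add (k := k) A _ _).trans (Nat.mul_le_mul_right _ ih)

end mdeg

/-- **The defects of the powers of the members of a family.** -/
theorem family_mdeg {R 𝒜 : Type} [CommRing R] [CommRing 𝒜] [Algebra R 𝒜] {d : ℕ}
    {c : Module.Basis (Fin d) R 𝒜} {i₀ : Fin d} (hc : Adapted c i₀) {K B : Type} [Field K]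
    [IsAlgClosed K] [CommRing B] [Algebra K B] {ψ : R →+* K} {cB : Module.Basis (Fin d) K B}
    {Ψ : 𝒜 →+* B} (hB : Over ψ c cB Ψ) {x : ℝ} (hx : rate K B < x) :
    ∃ q N n m W : ℕ, 1 ≤ q ∧ Sol ψ (kpow (kpow (kap c i₀) N) n) m W ∧
      ∀ (k A : Type) [Field k] [IsAlgClosed k] [CommRing A] [Algebra k A] (φ : R →+* k)
        (c' : Module.Basis (Fin d) k A) (Φ : 𝒜 →+* A), Over φ c c' Φ →
          Sol φ (kpow (kpow (kap c i₀) N) n) m W →
            (mdeg k (Pow k A q) : ℝ) < x ^ q := by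
  obtain ⟨e, rfl⟩ : ∃ e, d = e + 1 := by
    rcases d with - | e
    · exact i₀.elim0
    · exact ⟨e, rfl⟩
  have hlB := (hB.adapted hc).isLocalRing
  have hfB : Module.Finite K B := Module.Finite.of_basis cB
  obtain ⟨N, n, m, W, hN, hn, hm, hL, hW⟩ := exists_lines (nilp cB i₀) hx e
  refine ⟨n * N, N, n, m, W, Nat.mul_pos hn hN, sol_of_lines (((hB.coord i₀).pow N).pow n) hL, ?_⟩
  intro k A _ _ _ _ φ c' Φ hA hS
  have hcA := hA.adapted hc
  have hlA := hcA.isLocalRing
  have hfA : Module.Finite k A := Module.Finite.of_basis c'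
  subst hm
  have hgen := adjoin_nilp hcA
  have hnil := span_nilp hcA
  have hgen' := adjoin_pow hgen N
  have hnil' := nil_pow (k := k) _ e hnil N
  have hnil2 := nil_pow (k := k) _ _ hnil' n
  have h1 := inLines_of_linesUpTo (adjoin_pow hgen' n) hnil2
    (lines_of_sol (((hA.coord i₀).pow N).pow n) hS)
  have h2 := fam_pow_of_lines hgen' hnil' h1
  have h3 := (mdeg_pow_pow_le (k := k) A N n).trans (TH671.DU.mdeg_le h2)
  rw [mul_comm n N]
  rw [mul_comm n N] at h3
  refine lt_of_le_of_lt ?_ hW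
  exact_mod_cast h3

theorem Sol.infinite_of_quotient {I : Type} {F : I → Type} [∀ i, Field (F i)] {K : Type} [Field K]
    (φ : (∀ i, F i) →+* K) (hφ : Function.Surjective φ) (hker : finIdeal F ≤ RingHom.ker φ)
    {σ J : Type} [Fintype σ] [Finite J] {κ : J → (σ →₀ ℕ) → ∀ i, F i} {m W : ℕ}
    (h : Sol φ κ m W) : {i | Sol (Pi.evalRingHom F i) κ m W}.Infinite := by
  classical
  have := Fintype.ofFinite J
  obtain ⟨p, c, hpc⟩ := h
  choose P hP using fun w v => hφ (p w v)
  choose C' hC using fun j e w => hφ (c j e w)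
  have hfin : {s : σ →₀ ℕ | s.degree ≤ m}.Finite := by
    have h1 : {s : σ →₀ ℕ | s.degree ≤ m} ⊆
        Set.Iic (Finsupp.equivFunOnFinite.symm fun _ : σ => m) := by
      intro s hs v
      have h2 : s v ≤ s.degree := Finsupp.le_degree v s
      have h3 : s.degree ≤ m := hs
      exact h2.trans h3
    exact (Set.finite_Iic _).subset h1
  let Q := J × {s : σ →₀ ℕ // s.degree ≤ m}
  have hQ : Fintype Q := @instFintypeProd _ _ _ hfin.fintype
  let g : Q → ∀ i, F i := fun q => κ q.1 q.2.1 -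
    ∑ w, C' q.1 ⟨q.2.1.degree, by have := q.2.2; omega⟩ w * ∏ v, P w v ^ q.2.1 v
  have hg : ∀ q, φ (g q) = 0 := by
    intro q
    simp only [g, map_sub, map_sum, map_mul, map_prod, map_pow, hP, hC]
    rw [hpc q.1 q.2.1 q.2.2]
    exact sub_self _
  intro hG
  have h1 : ∀ i, i ∉ {i | Sol (Pi.evalRingHom F i) κ m W} → ∃ q, g q i ≠ 0 := by
    intro i hi
    by_contra hcon
    push Not at hcon
    apply hi
    refine ⟨fun w v => P w v i, fun j e w => C' j e w i, fun j s hs => ?_⟩
    have h2 := hcon (j, ⟨s, hs⟩)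
    simp only [g, Pi.sub_apply, Finset.sum_apply, Pi.mul_apply, Finset.prod_apply,
      Pi.pow_apply] at h2
    exact sub_eq_zero.1 h2
  let H : Q → ∀ i, F i := fun q' i =>
    if hi : i ∉ {i | Sol (Pi.evalRingHom F i) κ m W} then
      (if q' = (h1 i hi).choose then (g q' i)⁻¹ else 0) else 0
  have h3 : (1 - ∑ q', H q' * g q') ∈ finIdeal F := by
    change {i | (1 - ∑ q', H q' * g q') i ≠ 0}.Finite
    refine hG.subset fun i hi => ?_
    by_contra hiG
    apply hi
    rw [Pi.sub_apply, Finset.sum_apply, Finset.sum_eq_single (h1 i hiG).choose]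
    · simp only [H, Pi.mul_apply, Pi.one_apply]
      rw [dif_pos hiG, if_pos trivial, inv_mul_cancel₀ (h1 i hiG).choose_spec, sub_self]
    · intro q' _ hne
      simp only [H, Pi.mul_apply]
      rw [dif_pos hiG, if_neg hne, zero_mul]
    · intro hno
      exact absurd (Finset.mem_univ _) hno
  have h4 := hker h3
  rw [RingHom.mem_ker, map_sub, map_one, map_sum] at h4
  have h5 : ∑ q', φ (H q' * g q') = 0 := Finset.sum_eq_zero fun q' _ => by
    rw [map_mul, hg, mul_zero]
  rw [h5, sub_zero] at h4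
  exact one_ne_zero h4

/-- **Uniform powers in sequences of algebras.** -/
theorem ultra {k : ℕ → Type} [∀ i, Field (k i)] [∀ i, IsAlgClosed (k i)] {A : ℕ → Type}
    [∀ i, CommRing (A i)] [∀ i, Algebra (k i) (A i)] {e : ℕ}
    (c : ∀ i, Module.Basis (Fin (e + 1)) (k i) (A i)) (hc : ∀ i, Adapted (c i) 0) {x : ℝ}
    (hx : ∀ (K : Type) [Field K] [IsAlgClosed K] (φ : (∀ i, k i) →+* K),
      finIdeal k ≤ RingHom.ker φ → ∀ y ∈ growthRates K (e + 1), y < x) :
    ∃ q, 1 ≤ q ∧ {i | (mdeg (k i) (Pow (k i) (A i) q) : ℝ) < x ^ q}.Infinite := by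
  classical
  have hn : ∀ i (j : Fin (e + 1)), j ≠ 0 → c i j ^ (e + 1) = 0 := by
    intro i j hj
    have := (hc i).isLocalRing
    have hfin : Module.Finite (k i) (A i) := Module.Finite.of_basis (c i)
    have h1 := pow_finrank_eq_zero (F := k i) ((hc i).2 j hj)
    rwa [Module.finrank_eq_card_basis (c i), Fintype.card_fin] at h1
  obtain ⟨𝒜, _, _, C, Φ, hC, hO⟩ := exists_prod_family c hc hn
  obtain ⟨M, hM, hle⟩ := Ideal.exists_le_maximal (finIdeal k) finIdeal_ne_top
  letI : Field ((∀ i, k i) ⧸ M) := Ideal.Quotient.field M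
  let φ : (∀ i, k i) →+* ((∀ i, k i) ⧸ M) := Ideal.Quotient.mk M
  have hφ : Function.Surjective φ := Ideal.Quotient.mk_surjective
  have hK : IsAlgClosed ((∀ i, k i) ⧸ M) := isAlgClosed_quotient φ hφ
  have hker : finIdeal k ≤ RingHom.ker φ := by
    rw [Ideal.mk_ker]
    exact hle
  obtain ⟨B, _, _, cB, Ψ, hB⟩ := exists_fibre' φ C
  have hcB := hB.adapted hC
  have hmem : rate ((∀ i, k i) ⧸ M) B ∈ growthRates ((∀ i, k i) ⧸ M) (e + 1) :=
    ⟨B, inferInstance, inferInstance, Module.Finite.of_basis cB, hcB.isLocalRing, by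
      rw [Module.finrank_eq_card_basis cB, Fintype.card_fin], rfl⟩
  obtain ⟨q, N, n, m, W, hq, hS, hr⟩ := family_mdeg hC hB (hx _ φ hker _ hmem)
  refine ⟨q, hq, (hS.infinite_of_quotient φ hφ hker).mono fun i hi => ?_⟩
  exact hr (k i) (A i) (Pi.evalRingHom k i) (c i) (Φ i) (hO i) hi

end Pool.Agent.Run7.h162.CH
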