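import Pool.Agent.Run7.h162.CH.Char

/-!
# Very general points over uncountable fields
-/

set_option autoImplicit false
set_option linter.unusedSectionVars false

namespace Pool.Agent.Run7.h162.CH

open scoped TensorProduct PowerSeries Topology
open Pool.Agent.H826R3.SM Pool.Agent.TH671.DU Pool.Agent.N86.SQ
open MvPolynomial

/-- extensions of countable degree of uncountable algebraically closed fields are trivial -/
theorem bijective_of_rank_le {K L : Type} [Field K] [IsAlgClosed K] [Uncountable K] [Field L]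
    [Algebra K L] (h : Module.rank K L ≤ Cardinal.aleph0) :
    Function.Bijective (algebraMap K L) := by
  have halg : Algebra.IsAlgebraic K L := by
    refine ⟨fun x => ?_⟩
    by_contra hx
    have h1 : Transcendental K x := hx
    have h2 := h1.linearIndependent_sub_inv.cardinal_le_rank
    have h3 : Cardinal.mk K ≤ Cardinal.aleph0 := h2.trans h
    have h4 : Countable K := Cardinal.mk_le_aleph0_iff.1 h3
    exact not_countable (α := K) h4
  have hint : Algebra.IsIntegral K L := Algebra.isAlgebraic_iff_isIntegral.1 halg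
  exact IsAlgClosed.algebraMap_bijective_of_isIntegral

/-- **Very general points.** -/
theorem exists_very_general {K E ι : Type} [Field K] [IsAlgClosed K] [Uncountable K] [Field E]
    [Algebra K E] [Countable ι] (p : ι → E) (f : ℕ → MvPolynomial ι K)
    (hf : ∀ i, aeval p (f i) ≠ 0) : ∃ y : ι → K,
      (∀ F : MvPolynomial ι K, aeval p F = 0 → eval y F = 0) ∧ ∀ i, eval y (f i) ≠ 0 := by
  classical
  let q : ι ⊕ ℕ → E := Sum.elim p fun i => (aeval p (f i))⁻¹
  let g : MvPolynomial (ι ⊕ ℕ) K →ₐ[K] E := aeval q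
  let S : Subalgebra K E := g.range
  obtain ⟨M, hM⟩ := Ideal.exists_maximal S
  letI : Field (S ⧸ M) := Ideal.Quotient.field M
  let h : MvPolynomial (ι ⊕ ℕ) K →ₐ[K] (S ⧸ M) := (Ideal.Quotient.mkₐ K M).comp g.rangeRestrict
  have hsurj : Function.Surjective h :=
    (Ideal.Quotient.mkₐ_surjective K M).comp g.rangeRestrict_surjective
  have hrank : Module.rank K (S ⧸ M) ≤ Cardinal.aleph0 := by
    refine (LinearMap.rank_le_of_surjective h.toLinearMap hsurj).trans ?_
    rw [← (basisMonomials (ι ⊕ ℕ) K).mk_eq_rank'']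
    exact Cardinal.mk_le_aleph0
  have hbij := bijective_of_rank_le hrank
  let e : K ≃ₐ[K] (S ⧸ M) := AlgEquiv.ofBijective (Algebra.ofId K (S ⧸ M)) hbij
  let χ : MvPolynomial (ι ⊕ ℕ) K →ₐ[K] K := e.symm.toAlgHom.comp h
  have hχ : ∀ G, g G = 0 → χ G = 0 := by
    intro G hG
    have h1 : g.rangeRestrict G = 0 := Subtype.ext hG
    change e.symm (Ideal.Quotient.mkₐ K M (g.rangeRestrict G)) = 0
    rw [h1, map_zero, map_zero]
  let y : ι → K := fun i => χ (X (Sum.inl i))
  have hy : ∀ F : MvPolynomial ι K, χ (rename Sum.inl F) = eval y F := by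
    intro F
    have h2 : χ.comp (rename Sum.inl) = (aeval y : MvPolynomial ι K →ₐ[K] K) := by
      apply MvPolynomial.algHom_ext
      intro i
      rw [AlgHom.comp_apply, rename_X, aeval_X]
    have h3 := congrArg (fun φ : MvPolynomial ι K →ₐ[K] K => φ F) h2
    beta_reduce at h3
    rw [AlgHom.comp_apply, aeval_eq_eval] at h3
    exact h3
  have hg : ∀ F : MvPolynomial ι K, g (rename Sum.inl F) = aeval p F := by
    intro F
    change aeval q (rename Sum.inl F) = _
    rw [aeval_rename]
    rfl
  refine ⟨y, fun F hF => ?_, fun i h0 => ?_⟩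
  · rw [← hy]
    exact hχ _ (by rw [hg, hF])
  · have h4 : χ (rename Sum.inl (f i) * X (Sum.inr i) - 1) = 0 := by
      apply hχ
      rw [map_sub, map_mul, hg, map_one]
      change aeval p (f i) * aeval q (X (Sum.inr i)) - 1 = 0
      rw [aeval_X]
      change aeval p (f i) * (aeval p (f i))⁻¹ - 1 = 0
      rw [mul_inv_cancel₀ (hf i), sub_self]
    rw [map_sub, map_mul, hy, h0, zero_mul, map_one, zero_sub, neg_eq_zero] at h4
    exact one_ne_zero h4

/-- the growth rate at a point of the Zariski closure -/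
theorem closure_rate' {k : Type} [Field k] [IsAlgClosed k] {d : ℕ} {ZI : Type} {E : ZI → Type}
    [∀ i, CommRing (E i)] [∀ i, Algebra k (E i)] (c : ∀ i, Module.Basis (Fin d) k (E i)) {B : Type}
    [CommRing B] [Algebra k B] [IsLocalRing B] (c₀ : Module.Basis (Fin d) k B)
    (hcl : ∀ Q : MvPolynomial (PIdx d) k, (∀ i, eval (par (c i)) Q = 0) → eval (par c₀) Q = 0)
    {x : ℝ} (hx : ∀ i, rate k (E i) ≤ x) : rate k B ≤ x := by
  have hY : ∀ y : Option ZI, ∃ (A : Type) (_ : CommRing A) (_ : Algebra k A)
      (c' : Module.Basis (Fin d) k A),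
      (y = none → par c' = par c₀ ∧ IsLocalRing A ∧ rate k A = rate k B) ∧
      (∀ z : ZI, y = some z → par c' = par (c z) ∧ rate k A ≤ x) := by
    rintro (_ | z)
    · exact ⟨B, inferInstance, inferInstance, c₀, fun _ => ⟨rfl, inferInstance, rfl⟩,
        fun z hz => absurd hz.symm (Option.some_ne_none z)⟩
    · refine ⟨E z, inferInstance, inferInstance, c z,
        ⟨fun h => absurd h (Option.some_ne_none z), fun z' hz' => ?_⟩⟩
      obtain rfl : z = z' := Option.some.inj hz'
      exact ⟨rfl, hx z⟩
  choose A cA aA cc h1 h2 using hY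
  obtain ⟨hn1, hn2, hn3⟩ := h1 none rfl
  have h3 := closure_rate cc none (ZI := ZI) some (fun Q hQ => by
    rw [hn1]
    exact hcl Q fun i => by
      rw [← (h2 (some i) i rfl).1]
      exact hQ i) (x := x) fun i => (h2 (some i) i rfl).2
  rwa [hn3] at h3

theorem rate_le_of_par {k : Type} [Field k] [IsAlgClosed k] {d : ℕ} {A B : Type} [CommRing A]
    [Algebra k A] [CommRing B] [Algebra k B] [IsLocalRing B] (c : Module.Basis (Fin d) k A)
    (c' : Module.Basis (Fin d) k B) (h : par c = par c') : rate k B ≤ rate k A :=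
  closure_rate' (ZI := Unit) (E := fun _ => A) (fun _ => c) c' (fun Q hQ => by
    rw [← h]
    exact hQ ()) fun _ => le_rfl

end Pool.Agent.Run7.h162.CH
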